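import Pool.Agent.N375.AFDefs

namespace Pool.Agent.N375.AF

open Finset

section Upper

variable {α : Type}

attribute [local instance] Classical.propDecidable

/-- complete extension relative to a finset of arguments -/
def RComplete (A : Finset α) (R : α → α → Prop) (S : Finset α) : Prop :=
  S ⊆ A ∧ (∀ a ∈ S, ∀ b ∈ S, ¬ R a b) ∧ (∀ a ∈ S, ∀ b ∈ A, R b a → ∃ c ∈ S, R c b) ∧
  (∀ a ∈ A, (∀ b ∈ A, R b a → ∃ c ∈ S, R c b) → a ∈ S)

noncomputable def com (A : Finset α) (R : α → α → Prop) : Finset (Finset α) :=
  A.powerset.filter (fun S => RComplete A R S)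

noncomputable def selfs (A : Finset α) (R : α → α → Prop) : Finset α := A.filter (fun a => R a a)

noncomputable def nons (A : Finset α) (R : α → α → Prop) : Finset α := A.filter (fun a => ¬ R a a)

noncomputable def rest (A : Finset α) (R : α → α → Prop) (a : α) : Finset α :=
  A.filter (fun b => b ≠ a ∧ ¬ R a b ∧ ¬ R b a)

def addSelf (R : α → α → Prop) (a : α) : α → α → Prop := fun x y => R x y ∨ (x = a ∧ y = a)

lemma mem_com {A : Finset α} {R : α → α → Prop} {S : Finset α} :
    S ∈ com A R ↔ RComplete A R S := by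
  unfold com
  rw [Finset.mem_filter, Finset.mem_powerset]
  exact ⟨fun h => h.2, fun h => ⟨h.1, h⟩⟩

lemma mem_rest {A : Finset α} {R : α → α → Prop} {a b : α} :
    b ∈ rest A R a ↔ b ∈ A ∧ b ≠ a ∧ ¬ R a b ∧ ¬ R b a := by
  unfold rest; exact Finset.mem_filter

lemma mem_nons {A : Finset α} {R : α → α → Prop} {b : α} :
    b ∈ nons A R ↔ b ∈ A ∧ ¬ R b b := by
  unfold nons; exact Finset.mem_filter

lemma mem_selfs {A : Finset α} {R : α → α → Prop} {b : α} :
    b ∈ selfs A R ↔ b ∈ A ∧ R b b := by
  unfold selfs; exact Finset.mem_filter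

/-- Claim 1. -/
lemma claim1 (A : Finset α) (R : α → α → Prop) (a : α) (ha : a ∈ A) (hR : ¬ R a a) :
    ((com A R).filter (fun S => a ∈ S)).card ≤ (com (rest A R a) R).card := by
  apply Finset.card_le_card_of_injOn (fun S => S.erase a)
  · intro S hS
    simp only [Finset.coe_filter, Set.mem_ofPred_eq, mem_com] at hS
    obtain ⟨⟨hSA, hcf, hdef, hcl⟩, haS⟩ := hS
    simp only [Finset.mem_coe, mem_com]
    refine ⟨?_, ?_, ?_, ?_⟩
    · intro x hx
      rw [Finset.mem_erase] at hx
      rw [mem_rest]
      exact ⟨hSA hx.2, hx.1, hcf a haS x hx.2, hcf x hx.2 a haS⟩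
    · intro x hx y hy
      rw [Finset.mem_erase] at hx hy
      exact hcf x hx.2 y hy.2
    · intro x hx b hb hbx
      rw [Finset.mem_erase] at hx
      rw [mem_rest] at hb
      obtain ⟨c, hc, hcb⟩ := hdef x hx.2 b hb.1 hbx
      refine ⟨c, ?_, hcb⟩
      rw [Finset.mem_erase]
      refine ⟨?_, hc⟩
      rintro rfl
      exact hb.2.2.1 hcb
    · intro x hx hd
      rw [mem_rest] at hx
      rw [Finset.mem_erase]
      refine ⟨hx.2.1, ?_⟩
      apply hcl x hx.1
      intro b hb hbx
      by_cases hb1 : b ∈ rest A R a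
      · obtain ⟨c, hc, hcb⟩ := hd b hb1 hbx
        rw [Finset.mem_erase] at hc
        exact ⟨c, hc.2, hcb⟩
      · rw [mem_rest] at hb1
        by_cases hba : b = a
        · subst hba
          exact absurd hbx hx.2.2.1
        · by_cases h1 : R a b
          · exact ⟨a, haS, h1⟩
          · by_cases h2 : R b a
            · exact hdef a haS b hb h2
            · exact absurd ⟨hb, hba, h1, h2⟩ hb1
  · intro S hS T hT hST
    simp only [Finset.coe_filter, Set.mem_ofPred_eq] at hS hT
    have h1 := Finset.insert_erase hS.2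
    have h2 := Finset.insert_erase hT.2
    simp only at hST
    rw [← h1, ← h2, hST]

/-- Claim 2. -/
lemma claim2 (A : Finset α) (R : α → α → Prop) (a : α) :
    ((com A R).filter (fun S => ¬ a ∈ S)).card ≤ (com A (addSelf R a)).card := by
  apply Finset.card_le_card
  intro S hS
  rw [Finset.mem_filter, mem_com] at hS
  obtain ⟨⟨hSA, hcf, hdef, hcl⟩, haS⟩ := hS
  rw [mem_com]
  refine ⟨hSA, ?_, ?_, ?_⟩
  · intro x hx y hy h
    rcases h with h | h
    · exact hcf x hx y hy h
    · exact haS (h.1 ▸ hx)
  · intro x hx b hb h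
    rcases h with h | h
    · obtain ⟨c, hc, hcb⟩ := hdef x hx b hb h
      exact ⟨c, hc, Or.inl hcb⟩
    · exact absurd (h.2 ▸ hx) haS
  · intro x hx hd
    apply hcl x hx
    intro b hb hbx
    obtain ⟨c, hc, hcb⟩ := hd b hb (Or.inl hbx)
    rcases hcb with h | h
    · exact ⟨c, hc, h⟩
    · exact absurd (h.1 ▸ hc) haS

/-- branching -/
lemma branch (A : Finset α) (R : α → α → Prop) (a : α) (ha : a ∈ A) (hR : ¬ R a a) :
    (com A R).card ≤ (com (rest A R a) R).card + (com A (addSelf R a)).card := by
  rw [← Finset.card_filter_add_card_filter_not (s := com A R) (fun S => a ∈ S)]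
  exact Nat.add_le_add (claim1 A R a ha hR) (claim2 A R a)

/-- Claim 3. -/
lemma claim3 (A : Finset α) (R : α → α → Prop)
    (h : ∀ a ∈ nons A R, ∀ b ∈ nons A R, ¬ R a b) :
    (com A R).card ≤ 2 ^ (nons A R).card ∧ (com A R).card ≤ 2 ^ (selfs A R).card := by
  constructor
  · rw [← Finset.card_powerset]
    apply Finset.card_le_card
    intro S hS
    rw [mem_com] at hS
    rw [Finset.mem_powerset]
    intro x hx
    rw [mem_nons]
    exact ⟨hS.1 hx, hS.2.1 x hx x hx⟩
  · rw [← Finset.card_powerset]
    apply Finset.card_le_card_of_injOn (fun S => (selfs A R).filter (fun b => ∃ c ∈ S, R c b))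
    · intro S hS
      simp only [Finset.mem_coe, Finset.mem_powerset]
      exact Finset.filter_subset _ _
    · intro S hS T hT hST
      simp only [Finset.mem_coe, mem_com] at hS hT
      simp only at hST
      have key : ∀ S, RComplete A R S → ∀ x, x ∈ S ↔ (x ∈ nons A R ∧
          ∀ b ∈ selfs A R, R b x → b ∈ (selfs A R).filter (fun b => ∃ c ∈ S, R c b)) := by
        intro S hS x
        constructor
        · intro hx
          have hxA := hS.1 hx
          refine ⟨?_, ?_⟩
          · rw [mem_nons]
            exact ⟨hxA, hS.2.1 x hx x hx⟩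
          · intro b hb hbx
            rw [Finset.mem_filter]
            refine ⟨hb, ?_⟩
            apply hS.2.2.1 x hx b _ hbx
            exact (mem_selfs.mp hb).1
        · rintro ⟨hx, hb⟩
          apply hS.2.2.2 x
          · exact (mem_nons.mp hx).1
          · intro b hbA hbx
            have hbs : b ∈ selfs A R := by
              rw [mem_selfs]
              refine ⟨hbA, ?_⟩
              by_contra hbb
              apply h b _ x hx hbx
              rw [mem_nons]
              exact ⟨hbA, hbb⟩
            exact (Finset.mem_filter.mp (hb b hbs hbx)).2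
      ext x
      rw [key S hS x, key T hT x, hST]

/-- The bound function. -/
def B (r s : ℕ) : ℕ :=
  if r ≤ max s 1 then 2 ^ r
  else 2 ^ (max s 1 - (r - max s 1) % 2) * 3 ^ ((r - max s 1 + 1) / 2)

lemma B_le {r s : ℕ} (hs : 1 ≤ s) (h : r ≤ s) : B r s = 2 ^ r := by
  unfold B
  rw [if_pos]
  omega

lemma B_even {r s j : ℕ} (hs : 1 ≤ s) (h : r = s + 2 * j) : B r s = 2 ^ s * 3 ^ j := by
  unfold B
  have h1 : max s 1 = s := by omega
  rw [h1]
  rcases Nat.eq_zero_or_pos j with hj | hj
  · subst hj
    rw [if_pos (by omega)]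
    simp at h
    rw [h]; simp
  · rw [if_neg (by omega)]
    have h2 : (r - s) % 2 = 0 := by omega
    have h3 : (r - s + 1) / 2 = j := by omega
    rw [h2, h3]; simp

lemma B_odd {r s j : ℕ} (h : r = (s + 1) + 2 * j + 1) : B r (s + 1) = 2 ^ s * 3 ^ (j + 1) := by
  unfold B
  have h1 : max (s + 1) 1 = s + 1 := by omega
  rw [h1, if_neg (by omega)]
  have h2 : (r - (s + 1)) % 2 = 1 := by omega
  have h3 : (r - (s + 1) + 1) / 2 = j + 1 := by omega
  rw [h2, h3]; simp

lemma B_zero (r : ℕ) : B r 0 = B r 1 := by
  unfold B; simp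

lemma trich (r s : ℕ) : r ≤ s ∨ (∃ j, r = s + 2 * j) ∨ (∃ j, r = s + 2 * j + 1) := by
  by_cases h : r ≤ s
  · exact Or.inl h
  · right
    rcases Nat.even_or_odd' (r - s) with ⟨j, hj | hj⟩
    · left; exact ⟨j, by omega⟩
    · right; exact ⟨j, by omega⟩

lemma B_mono_r_succ (r s : ℕ) : B r (s + 1) ≤ B (r + 1) (s + 1) := by
  rcases trich r (s + 1) with h | ⟨j, h⟩ | ⟨j, h⟩
  · rw [B_le (by omega) h]
    rcases Nat.lt_or_ge r (s + 1) with h1 | h1
    · rw [B_le (by omega) (by omega)]
      exact Nat.pow_le_pow_right (by norm_num) (by omega)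
    · have h2 : r = s + 1 := by omega
      rw [B_odd (j := 0) (by omega), h2, pow_succ]
      have := Nat.pos_of_ne_zero (pow_ne_zero s (two_ne_zero (α := ℕ)))
      omega
  · rw [B_even (by omega) h, B_odd (j := j) (by omega), pow_succ, pow_succ]
    nlinarith [Nat.zero_le (2 ^ s * 3 ^ j)]
  · rw [B_odd h, B_even (j := j + 1) (by omega) (by omega), pow_succ 2 s]
    nlinarith [Nat.zero_le (2 ^ s * 3 ^ (j + 1))]

lemma B_mono_s_succ (r s : ℕ) : B r (s + 1) ≤ B r (s + 2) := by
  rcases trich r (s + 1) with h | ⟨j, h⟩ | ⟨j, h⟩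
  · rw [B_le (by omega) h, B_le (by omega) (by omega)]
  · rcases Nat.eq_zero_or_pos j with hj | hj
    · subst hj
      rw [B_le (by omega) (by omega), B_le (by omega) (by omega)]
    · obtain ⟨i, rfl⟩ : ∃ i, j = i + 1 := ⟨j - 1, by omega⟩
      rw [B_even (by omega) h, B_odd (j := i) (by omega)]
  · rw [B_odd h, B_even (j := j) (by omega) (by omega), pow_succ 3 j, pow_succ 2 (s + 1),
      pow_succ 2 s]
    nlinarith [Nat.zero_le (2 ^ s * 3 ^ j)]

lemma B_mono_r {r r' : ℕ} (s : ℕ) (h : r ≤ r') : B r s ≤ B r' s := by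
  rcases Nat.eq_zero_or_pos s with hs | hs
  · subst hs
    rw [B_zero, B_zero]
    induction h with
    | refl => exact le_rfl
    | step _ ih => exact ih.trans (B_mono_r_succ _ 0)
  · obtain ⟨t, rfl⟩ : ∃ t, s = t + 1 := ⟨s - 1, by omega⟩
    induction h with
    | refl => exact le_rfl
    | step _ ih => exact ih.trans (B_mono_r_succ _ t)

lemma B_mono_s {s s' : ℕ} (r : ℕ) (h : s ≤ s') : B r s ≤ B r s' := by
  induction h with
  | refl => exact le_rfl
  | step _ ih =>
    rename_i m _
    refine ih.trans ?_
    rcases Nat.eq_zero_or_pos m with hs | hs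
    · subst hs; rw [B_zero]
    · obtain ⟨t, rfl⟩ : ∃ t, m = t + 1 := ⟨m - 1, by omega⟩
      exact B_mono_s_succ r t

lemma B_rec_pos (r t : ℕ) : B r (t + 1) + B (r + 1) (t + 2) ≤ B (r + 2) (t + 1) := by
  rcases trich (r + 2) (t + 1) with h | ⟨j, h⟩ | ⟨j, h⟩
  · rw [B_le (by omega) (by omega), B_le (by omega) (by omega), B_le (by omega) h,
      pow_succ 2 (r + 1), pow_succ 2 r]
    nlinarith [Nat.zero_le (2 ^ r)]
  · rcases Nat.eq_zero_or_pos j with hj | hj
    · subst hj
      rw [B_le (by omega) (by omega), B_le (by omega) (by omega),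
        B_le (by omega) (by omega), pow_succ 2 (r + 1), pow_succ 2 r]
      nlinarith [Nat.zero_le (2 ^ r)]
    · obtain ⟨i, rfl⟩ : ∃ i, j = i + 1 := ⟨j - 1, by omega⟩
      rw [B_even (s := t + 1) (j := i) (by omega) (by omega),
        B_even (s := t + 2) (j := i) (by omega) (by omega),
        B_even (s := t + 1) (j := i + 1) (by omega) h, pow_succ 3 i, pow_succ 2 (t + 1)]
      nlinarith [Nat.zero_le (2 ^ (t + 1) * 3 ^ i)]
  · rw [B_odd (j := j) h]
    rcases Nat.eq_zero_or_pos j with hj | hj
    · subst hj
      rw [B_le (by omega) (by omega), B_le (by omega) (by omega), pow_succ 2 r]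
      have : r = t := by omega
      subst this
      norm_num
      nlinarith [Nat.zero_le (2 ^ r)]
    · obtain ⟨i, rfl⟩ : ∃ i, j = i + 1 := ⟨j - 1, by omega⟩
      rw [B_odd (s := t) (j := i) (by omega), B_odd (s := t + 1) (j := i) (by omega),
        pow_succ 3 (i + 1), pow_succ 2 t]
      nlinarith [Nat.zero_le (2 ^ t * 3 ^ (i + 1))]

lemma B_rec (r s : ℕ) : B r s + B (r + 1) (s + 1) ≤ B (r + 2) s := by
  rcases Nat.eq_zero_or_pos s with hs | hs
  · subst hs
    rw [B_zero, B_zero]
    exact (Nat.add_le_add_left (B_mono_s _ (by omega)) _).trans (B_rec_pos r 0)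
  · obtain ⟨t, rfl⟩ : ∃ t, s = t + 1 := ⟨s - 1, by omega⟩
    exact B_rec_pos r t

lemma two_pow_le_B (r s m : ℕ) (h1 : m ≤ 2 ^ r) (h2 : m ≤ 2 ^ s) : m ≤ B r s := by
  rcases Nat.eq_zero_or_pos s with hs | hs
  · subst hs
    refine h2.trans ?_
    have := B_mono_r (r := 0) (r' := r) 0 (by omega)
    refine le_trans ?_ this
    decide
  · rcases Nat.lt_or_ge s r with h | h
    · refine h2.trans ?_
      calc 2 ^ s = B s s := (B_le hs le_rfl).symm
        _ ≤ B r s := B_mono_r s h.le
    · rw [B_le hs h]; exact h1

lemma card_rest_nons {A : Finset α} {R : α → α → Prop} {a b : α} (ha : a ∈ nons A R)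
    (hb : b ∈ nons A R) (hab : a ≠ b) (hR : R a b ∨ R b a) :
    (nons (rest A R a) R).card + 2 ≤ (nons A R).card := by
  have hsub : nons (rest A R a) R ⊆ ((nons A R).erase a).erase b := by
    intro x hx
    rw [mem_nons, mem_rest] at hx
    rw [Finset.mem_erase, Finset.mem_erase, mem_nons]
    refine ⟨?_, hx.1.2.1, hx.1.1, hx.2⟩
    rintro rfl
    rcases hR with h | h
    · exact hx.1.2.2.1 h
    · exact hx.1.2.2.2 h
  have h1 := Finset.card_le_card hsub
  rw [Finset.card_erase_of_mem, Finset.card_erase_of_mem ha] at h1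
  · have h2 : 2 ≤ (nons A R).card := by
      have : ({a, b} : Finset α) ⊆ nons A R := by
        intro x hx
        rw [Finset.mem_insert, Finset.mem_singleton] at hx
        rcases hx with rfl | rfl
        · exact ha
        · exact hb
      have h3 := Finset.card_le_card this
      rwa [Finset.card_pair hab] at h3
    omega
  · rw [Finset.mem_erase]
    exact ⟨hab.symm, hb⟩

lemma card_rest_selfs (A : Finset α) (R : α → α → Prop) (a : α) :
    (selfs (rest A R a) R).card ≤ (selfs A R).card := by
  apply Finset.card_le_card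
  intro x hx
  rw [mem_selfs, mem_rest] at hx
  rw [mem_selfs]
  exact ⟨hx.1.1, hx.2⟩

lemma card_addSelf_nons {A : Finset α} {R : α → α → Prop} {a : α} (ha : a ∈ nons A R) :
    (nons A (addSelf R a)).card + 1 = (nons A R).card := by
  have : nons A (addSelf R a) = (nons A R).erase a := by
    ext x
    rw [mem_nons, Finset.mem_erase, mem_nons]
    unfold addSelf
    constructor
    · rintro ⟨h1, h2⟩
      push Not at h2
      refine ⟨?_, h1, h2.1⟩
      intro h
      exact h2.2 h h
    · rintro ⟨h1, h2, h3⟩
      refine ⟨h2, ?_⟩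
      rintro (h | h)
      · exact h3 h
      · exact h1 h.1
  rw [this]
  exact Finset.card_erase_add_one ha

lemma card_addSelf_selfs {A : Finset α} {R : α → α → Prop} {a : α} (ha : a ∈ nons A R) :
    (selfs A (addSelf R a)).card = (selfs A R).card + 1 := by
  have hmem := ha
  rw [mem_nons] at hmem
  have : selfs A (addSelf R a) = insert a (selfs A R) := by
    ext x
    rw [mem_selfs, Finset.mem_insert, mem_selfs]
    unfold addSelf
    constructor
    · rintro ⟨h1, h2 | h2⟩
      · exact Or.inr ⟨h1, h2⟩
      · exact Or.inl h2.1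
    · rintro (h | h)
      · subst h
        exact ⟨hmem.1, Or.inr ⟨rfl, rfl⟩⟩
      · exact ⟨h.1, Or.inl h.2⟩
  rw [this, Finset.card_insert_of_notMem]
  intro h
  rw [mem_selfs] at h
  exact hmem.2 h.2

theorem com_le_B : ∀ (r : ℕ) (A : Finset α) (R : α → α → Prop), (nons A R).card ≤ r →
    (com A R).card ≤ B (nons A R).card (selfs A R).card := by
  intro r
  induction r with
  | zero =>
    intro A R h
    have h0 : (nons A R).card = 0 := by omega
    have hc := claim3 A R (by
      intro a ha
      rw [Finset.card_eq_zero] at h0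
      rw [h0] at ha
      simp at ha)
    exact two_pow_le_B _ _ _ hc.1 hc.2
  | succ r ih =>
    intro A R h
    by_cases hex : ∃ a ∈ nons A R, ∃ b ∈ nons A R, R a b
    · obtain ⟨a, ha, b, hb, hab⟩ := hex
      have ha' := ha
      rw [mem_nons] at ha'
      have hne : a ≠ b := by
        rintro rfl
        exact ha'.2 hab
      have hbr := branch A R a ha'.1 ha'.2
      have h1 := card_rest_nons ha hb hne (Or.inl hab)
      have h2 := card_rest_selfs A R a
      have h3 := card_addSelf_nons ha
      have h4 := card_addSelf_selfs ha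
      have i1 := ih (rest A R a) R (by omega)
      have i2 := ih A (addSelf R a) (by omega)
      obtain ⟨q, hq⟩ : ∃ q, (nons A R).card = q + 2 := ⟨(nons A R).card - 2, by omega⟩
      have i3 : B (nons (rest A R a) R).card (selfs (rest A R a) R).card ≤
          B q (selfs A R).card :=
        (B_mono_r _ (by omega)).trans (B_mono_s _ h2)
      have i4 : (nons A (addSelf R a)).card = q + 1 := by omega
      rw [i4, h4] at i2
      rw [hq]
      exact (hbr.trans (Nat.add_le_add (i1.trans i3) i2)).trans (B_rec q _)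
    · push Not at hex
      have hc := claim3 A R hex
      exact two_pow_le_B _ _ _ hc.1 hc.2

theorem com_le (A : Finset α) (R : α → α → Prop) :
    (com A R).card ≤ B (nons A R).card (selfs A R).card :=
  com_le_B _ A R le_rfl

lemma card_nons_add_selfs (A : Finset α) (R : α → α → Prop) :
    (nons A R).card + (selfs A R).card = A.card := by
  unfold nons selfs
  rw [add_comm]
  exact Finset.card_filter_add_card_filter_not _

lemma B_even_n (r s m : ℕ) (h : r + s = 2 * m) : B r s ≤ 3 ^ m := by
  rcases Nat.eq_zero_or_pos s with hs | hs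
  · subst hs
    rw [B_zero]
    rcases Nat.eq_zero_or_pos m with hm | hm
    · subst hm
      have : r = 0 := by omega
      subst this; decide
    · obtain ⟨j, rfl⟩ : ∃ j, m = j + 1 := ⟨m - 1, by omega⟩
      rw [B_odd (s := 0) (j := j) (by omega)]
      simp
  · rcases trich r s with h1 | ⟨j, h1⟩ | ⟨j, h1⟩
    · rw [B_le hs h1]
      calc 2 ^ r ≤ 3 ^ r := Nat.pow_le_pow_left (by norm_num) _
        _ ≤ 3 ^ m := Nat.pow_le_pow_right (by norm_num) (by omega)
    · rw [B_even hs h1]
      have : m = s + j := by omega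
      rw [this, pow_add]
      exact Nat.mul_le_mul_right _ (Nat.pow_le_pow_left (by norm_num) _)
    · omega

lemma B_odd_n (r s m : ℕ) (h : r + (s + 1) = 2 * m + 3) : B r (s + 1) ≤ 4 * 3 ^ m := by
  rcases trich r (s + 1) with h1 | ⟨j, h1⟩ | ⟨j, h1⟩
  · rw [B_le (by omega) h1]
    have : r ≤ m + 1 := by omega
    calc 2 ^ r ≤ 2 ^ (m + 1) := Nat.pow_le_pow_right (by norm_num) this
      _ = 2 * 2 ^ m := by rw [pow_succ]; ring
      _ ≤ 4 * 3 ^ m := Nat.mul_le_mul (by norm_num) (Nat.pow_le_pow_left (by norm_num) _)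
  · omega
  · rw [B_odd h1]
    have : m = s + j := by omega
    rw [this, pow_succ 3 j, pow_add 3 s j]
    have h3 : 2 ^ s ≤ 3 ^ s := Nat.pow_le_pow_left (by norm_num) _
    have h4 : 2 ^ s * 3 ^ j ≤ 3 ^ s * 3 ^ j := Nat.mul_le_mul_right _ h3
    nlinarith [Nat.zero_le (3 ^ s * 3 ^ j)]

theorem com_even (A : Finset α) (R : α → α → Prop) (m : ℕ) (h : A.card = 2 * m) :
    (com A R).card ≤ 3 ^ m := by
  refine (com_le A R).trans (B_even_n _ _ m ?_)
  rw [card_nons_add_selfs, h]

/-- An argument without attackers lies in every complete extension. -/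
lemma isolated (A : Finset α) (R : α → α → Prop) (a : α) (ha : a ∈ A)
    (h : ∀ b ∈ A, ¬ R a b ∧ ¬ R b a) :
    (com A R).card ≤ (com (A.erase a) R).card := by
  have h1 : (com A R).filter (fun S => a ∈ S) = com A R := by
    rw [Finset.filter_eq_self]
    intro S hS
    rw [mem_com] at hS
    apply hS.2.2.2 a ha
    intro b hb hba
    exact absurd hba (h b hb).2
  have h2 : rest A R a = A.erase a := by
    ext b
    rw [mem_rest, Finset.mem_erase]
    constructor
    · rintro ⟨h3, h4, _⟩
      exact ⟨h4, h3⟩
    · rintro ⟨h3, h4⟩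
      exact ⟨h4, h3, h b h4⟩
  have h3 := claim1 A R a ha (h a ha).1
  rwa [h1, h2] at h3

/-- If every vertex of a symmetric irreflexive relation on a finset has exactly one neighbour,
the finset has even cardinality. -/
lemma even_of_matching (A : Finset α) (C : α → α → Prop) (hsymm : ∀ a b, C a b → C b a)
    (hirr : ∀ a ∈ A, ¬ C a a) (h : ∀ a ∈ A, ∃! b, b ∈ A ∧ C a b) : Even A.card := by
  let G : SimpleGraph A := 
    { Adj := fun x y => C x.1 y.1
      symm := ⟨fun x y hxy => hsymm x.1 y.1 hxy⟩
      loopless := ⟨fun x hx => hirr x.1 x.2 hx⟩ }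
  have hdeg : ∀ v : A, G.degree v = 1 := by
    intro v
    obtain ⟨b, ⟨hb, hvb⟩, huniq⟩ := h v.1 v.2
    rw [SimpleGraph.degree, Finset.card_eq_one]
    refine ⟨⟨b, hb⟩, ?_⟩
    ext w
    rw [SimpleGraph.mem_neighborFinset, Finset.mem_singleton]
    constructor
    · intro hw
      exact Subtype.ext (huniq w.1 ⟨w.2, hw⟩)
    · rintro rfl
      exact hvb
  have hsum := G.sum_degrees_eq_twice_card_edges
  rw [Finset.sum_congr rfl (fun v _ => hdeg v)] at hsum
  simp at hsum
  rw [hsum]
  exact even_two_mul _

theorem com_odd (A : Finset α) (R : α → α → Prop) (m : ℕ) (h : A.card = 2 * m + 3) :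
    (com A R).card ≤ 4 * 3 ^ m := by
  have hcard := card_nons_add_selfs A R
  rcases Nat.eq_zero_or_pos (selfs A R).card with hs | hs
  · have hns : ∀ a ∈ A, ¬ R a a := by
      intro a ha hR
      rw [Finset.card_eq_zero] at hs
      have : a ∈ selfs A R := mem_selfs.mpr ⟨ha, hR⟩
      rw [hs] at this
      simp at this
    by_cases hiso : ∃ a ∈ A, ∀ b ∈ A, ¬ R a b ∧ ¬ R b a
    · obtain ⟨a, ha, hab⟩ := hiso
      refine (isolated A R a ha hab).trans ?_
      refine (com_even (A.erase a) R (m + 1) ?_).trans ?_
      · rw [Finset.card_erase_of_mem ha]; omega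
      · rw [pow_succ]
        nlinarith [Nat.zero_le (3 ^ m)]
    · push Not at hiso
      by_cases htwo : ∃ a ∈ A, ∃ b ∈ A, ∃ c ∈ A, b ≠ c ∧ (R a b ∨ R b a) ∧ (R a c ∨ R c a)
      · obtain ⟨a, ha, b, hb, c, hc, hbc, hab, hac⟩ := htwo
        have hne1 : a ≠ b := by
          rintro rfl
          rcases hab with h | h <;> exact hns a ha h
        have hne2 : a ≠ c := by
          rintro rfl
          rcases hac with h | h <;> exact hns a ha h
        refine (branch A R a ha (hns a ha)).trans ?_
        have h1 : (com (rest A R a) R).card ≤ 3 ^ m := by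
          refine (com_le _ R).trans ?_
          have h2 : (rest A R a).card ≤ 2 * m := by
            have hsub : rest A R a ⊆ ((A.erase a).erase b).erase c := by
              intro x hx
              rw [mem_rest] at hx
              rw [Finset.mem_erase, Finset.mem_erase, Finset.mem_erase]
              refine ⟨?_, ?_, hx.2.1, hx.1⟩
              · rintro rfl
                rcases hac with h | h
                · exact hx.2.2.1 h
                · exact hx.2.2.2 h
              · rintro rfl
                rcases hab with h | h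
                · exact hx.2.2.1 h
                · exact hx.2.2.2 h
            have h3 := Finset.card_le_card hsub
            rw [Finset.card_erase_of_mem, Finset.card_erase_of_mem,
              Finset.card_erase_of_mem ha] at h3
            · omega
            · rw [Finset.mem_erase]; exact ⟨hne1.symm, hb⟩
            · rw [Finset.mem_erase, Finset.mem_erase]; exact ⟨hbc.symm, hne2.symm, hc⟩
          have h4 : (selfs (rest A R a) R).card = 0 := by
            have := card_rest_selfs A R a
            omega
          have h5 := card_nons_add_selfs (rest A R a) R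
          rw [h4]
          refine (B_mono_r (r' := 2 * m) 0 (by omega)).trans ?_
          exact B_even_n _ _ m (by omega)
        have h2 : (com A (addSelf R a)).card ≤ 3 ^ (m + 1) := by
          refine (com_le _ _).trans ?_
          have han : a ∈ nons A R := mem_nons.mpr ⟨ha, hns a ha⟩
          have h3 := card_addSelf_nons han
          rw [card_addSelf_selfs han, hs]
          have h4 : (nons A (addSelf R a)).card = 2 * m + 2 := by omega
          rw [h4, B_odd (s := 0) (j := m) (by omega)]
          simp
        refine (Nat.add_le_add h1 h2).trans ?_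
        rw [pow_succ]
        nlinarith [Nat.zero_le (3 ^ m)]
      · exfalso
        push Not at htwo
        have heven : Even A.card := by
          apply even_of_matching A (fun a b => R a b ∨ R b a)
          · intro a b hab
            exact hab.symm
          · intro a ha hh
            rcases hh with h | h <;> exact hns a ha h
          · intro a ha
            obtain ⟨b, hb, hab⟩ := hiso a ha
            have hab' : R a b ∨ R b a := by
              by_cases h1 : R a b
              · exact Or.inl h1
              · exact Or.inr (hab h1)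
            refine ⟨b, ⟨hb, hab'⟩, ?_⟩
            rintro c ⟨hc, hac⟩
            by_contra hne
            have := htwo a ha c hc b hb hne hac
            rcases hab' with h1 | h1
            · exact this.1 h1
            · exact this.2 h1
        rw [h] at heven
        rw [Nat.even_iff] at heven
        omega
  · obtain ⟨t, ht⟩ : ∃ t, (selfs A R).card = t + 1 := ⟨(selfs A R).card - 1, by omega⟩
    refine (com_le A R).trans ?_
    rw [ht]
    exact B_odd_n _ _ m (by omega)

theorem com_one (A : Finset α) (R : α → α → Prop) (h : A.card = 1) :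
    (com A R).card ≤ 1 := by
  obtain ⟨a, rfl⟩ := Finset.card_eq_one.mp h
  by_cases hR : R a a
  · have h1 := (claim3 {a} R (by
      intro x hx
      rw [mem_nons, Finset.mem_singleton] at hx
      exact absurd (hx.1 ▸ hR) hx.2)).1
    have h2 : (nons {a} R).card = 0 := by
      rw [Finset.card_eq_zero, Finset.eq_empty_iff_forall_notMem]
      intro x hx
      rw [mem_nons, Finset.mem_singleton] at hx
      exact absurd (hx.1 ▸ hR) hx.2
    rw [h2] at h1
    simpa using h1
  · refine (isolated {a} R a (by simp) ?_).trans ?_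
    · intro b hb
      rw [Finset.mem_singleton] at hb
      subst hb
      exact ⟨hR, hR⟩
    · have := com_even (({a} : Finset α).erase a) R 0 (by simp)
      simpa using this

/-- The bound for every `n`. -/
theorem com_le_sigma (A : Finset α) (R : α → α → Prop) : (com A R).card ≤ sigmaMax A.card := by
  unfold sigmaMax
  split_ifs with h1 h2
  · rcases Nat.eq_zero_or_pos A.card with h | h
    · have := com_even A R 0 (by omega)
      simpa using this
    · exact com_one A R (by omega)
  · apply com_even
    rw [Nat.even_iff] at h2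
    omega
  · apply com_odd
    rw [Nat.not_even_iff] at h2
    omega

end Upper

section Transfer

variable {A : Type} [Fintype A]

attribute [local instance] Classical.propDecidable

lemma isComplete_coe (R : A → A → Prop) (S : Finset A) :
    IsComplete R (S : Set A) ↔ RComplete Finset.univ R S := by
  unfold IsComplete Admissible ConflictFree Defends RComplete
  constructor
  · rintro ⟨⟨h1, h2⟩, h3⟩
    push Not at h1
    refine ⟨Finset.subset_univ _, ?_, ?_, ?_⟩
    · intro a ha b hb
      exact h1 a (Finset.mem_coe.mpr ha) b (Finset.mem_coe.mpr hb)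
    · intro a ha b _ hb
      obtain ⟨c, hc, hcb⟩ := h2 a (Finset.mem_coe.mpr ha) b hb
      exact ⟨c, Finset.mem_coe.mp hc, hcb⟩
    · intro a _ h
      apply Finset.mem_coe.mp
      apply h3 a
      intro b hb
      obtain ⟨c, hc, hcb⟩ := h b (Finset.mem_univ _) hb
      exact ⟨c, Finset.mem_coe.mpr hc, hcb⟩
  · rintro ⟨-, h1, h2, h3⟩
    refine ⟨⟨?_, ?_⟩, ?_⟩
    · rintro ⟨a, ha, b, hb, h⟩
      exact h1 a (Finset.mem_coe.mp ha) b (Finset.mem_coe.mp hb) h
    · intro a ha b hb
      obtain ⟨c, hc, hcb⟩ := h2 a (Finset.mem_coe.mp ha) b (Finset.mem_univ _) hb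
      exact ⟨c, Finset.mem_coe.mpr hc, hcb⟩
    · intro a h
      apply Finset.mem_coe.mpr
      apply h3 a (Finset.mem_univ _)
      intro b _ hb
      obtain ⟨c, hc, hcb⟩ := h b hb
      exact ⟨c, Finset.mem_coe.mp hc, hcb⟩

lemma numComplete_eq (R : A → A → Prop) : numComplete R = (com Finset.univ R).card := by
  unfold numComplete
  rw [← Set.ncard_coe_finset]
  symm
  apply Set.ncard_congr (fun (S : Finset A) _ => (S : Set A))
  · intro S hS
    rw [Finset.mem_coe, mem_com] at hS
    exact (isComplete_coe R S).mpr hS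
  · intro S T _ _ h
    exact Finset.coe_injective h
  · intro S hS
    refine ⟨S.toFinset, ?_, ?_⟩
    · rw [Finset.mem_coe, mem_com, ← isComplete_coe]
      rw [Set.coe_toFinset]
      exact hS
    · exact Set.coe_toFinset S

theorem numComplete_le (R : A → A → Prop) : numComplete R ≤ sigmaMax (Fintype.card A) := by
  rw [numComplete_eq]
  have := com_le_sigma (Finset.univ : Finset A) R
  rwa [Finset.card_univ] at this

end Transfer

section Lower

/-- Disjoint cliques of sizes `t i`. -/
def cliqueRel {ι : Type} (t : ι → ℕ) : (Σ i : ι, Fin (t i)) → (Σ i : ι, Fin (t i)) → Prop :=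
  fun x y => x.1 = y.1 ∧ x ≠ y

lemma complete_of_choice {ι : Type} (t : ι → ℕ) (ht : ∀ i, 2 ≤ t i)
    (f : ∀ i, Option (Fin (t i))) :
    IsComplete (cliqueRel t) {x | f x.1 = some x.2} := by
  unfold IsComplete Admissible ConflictFree Defends cliqueRel
  refine ⟨⟨?_, ?_⟩, ?_⟩
  · rintro ⟨⟨i, x⟩, hx, ⟨j, y⟩, hy, hij, hne⟩
    simp only [Set.mem_ofPred_eq] at hx hy hij
    subst hij
    rw [hx] at hy
    simp only [Option.some.injEq] at hy
    exact hne (by rw [hy])
  · rintro ⟨i, x⟩ hx ⟨j, y⟩ ⟨hij, hne⟩
    exact ⟨⟨i, x⟩, hx, hij.symm, hne.symm⟩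
  · rintro ⟨i, x⟩ h
    simp only [Set.mem_ofPred_eq]
    rcases hf : f i with _ | z
    · exfalso
      obtain ⟨y, hy⟩ : ∃ y : Fin (t i), y ≠ x := by
        have := ht i
        have : Nontrivial (Fin (t i)) := Fin.nontrivial_iff_two_le.mpr this
        exact exists_ne x
      obtain ⟨⟨j, c⟩, hc, hcj, _⟩ := h ⟨i, y⟩ ⟨rfl, by
        intro he
        apply hy
        simpa using he⟩
      simp only [Set.mem_ofPred_eq] at hc hcj
      subst hcj
      rw [hf] at hc
      exact absurd hc (by simp)
    · by_contra hne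
      have hzx : z ≠ x := by
        intro he
        exact hne (by rw [he])
      obtain ⟨⟨j, c⟩, hc, hcj, hcne⟩ := h ⟨i, z⟩ ⟨rfl, by
        intro he
        apply hzx
        simpa using he⟩
      simp only [Set.mem_ofPred_eq] at hc hcj
      subst hcj
      rw [hf] at hc
      simp only [Option.some.injEq] at hc
      exact hcne (by rw [hc])

lemma le_numComplete {ι : Type} [Fintype ι] (t : ι → ℕ) (ht : ∀ i, 2 ≤ t i) :
    ∏ i, (t i + 1) ≤ numComplete (cliqueRel t) := by
  classical
  have h1 : ∏ i, (t i + 1) = Fintype.card (∀ i, Option (Fin (t i))) := by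
    rw [Fintype.card_pi]
    simp
  rw [h1, ← Nat.card_eq_fintype_card]
  unfold numComplete
  rw [← Set.ncard_univ]
  apply Set.ncard_le_ncard_of_injOn (fun f => {x : Σ i : ι, Fin (t i) | f x.1 = some x.2})
  · intro f _
    exact complete_of_choice t ht f
  · intro f _ g _ hfg
    funext i
    simp only [Set.ext_iff, Set.mem_ofPred_eq] at hfg
    rcases hf : f i with _ | x
    · rcases hg : g i with _ | y
      · rfl
      · have := (hfg ⟨i, y⟩).mpr hg
        simp only at this
        rw [hf] at this
        exact absurd this (by simp)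
    · have := (hfg ⟨i, x⟩).mp hf
      simp only at this
      exact this.symm

lemma card_sigma_fin {ι : Type} [Fintype ι] (t : ι → ℕ) :
    Fintype.card (Σ i : ι, Fin (t i)) = ∑ i, t i := by
  simp

theorem exists_sigma (n : ℕ) : ∃ (A : Type) (_ : Fintype A) (R : A → A → Prop),
    Fintype.card A = n ∧ sigmaMax n ≤ numComplete R := by
  unfold sigmaMax
  split_ifs with h1 h2
  · rcases Nat.eq_zero_or_pos n with h | h
    · subst h
      refine ⟨Σ i : Fin 0, Fin 2, inferInstance, cliqueRel (fun _ => 2), by simp, ?_⟩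
      have := le_numComplete (ι := Fin 0) (fun _ => 2) (fun _ => le_rfl)
      simpa using this
    · have : n = 1 := by omega
      subst this
      refine ⟨Fin 1, inferInstance, fun _ _ => True, by simp, ?_⟩
      unfold numComplete
      rw [Nat.one_le_iff_ne_zero, Ne, Set.ncard_eq_zero (Set.toFinite _),
        ← Ne, ← Set.nonempty_iff_ne_empty]
      refine ⟨∅, ?_⟩
      unfold IsComplete Admissible ConflictFree Defends
      simp
  · rw [Nat.even_iff] at h2
    refine ⟨Σ i : Fin (n / 2), Fin 2, inferInstance, cliqueRel (fun _ => 2), ?_, ?_⟩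
    · rw [card_sigma_fin]
      simp
      omega
    · have := le_numComplete (ι := Fin (n / 2)) (fun _ => 2) (fun _ => le_rfl)
      simpa using this
  · rw [Nat.not_even_iff] at h2
    refine ⟨Σ i : Option (Fin ((n - 3) / 2)), Fin ((fun i => if i = none then 3 else 2 :
      Option (Fin ((n - 3) / 2)) → ℕ) i), inferInstance, cliqueRel _, ?_, ?_⟩
    · rw [card_sigma_fin, Fintype.sum_option]
      simp
      omega
    · have := le_numComplete (ι := Option (Fin ((n - 3) / 2)))
        (fun i => if i = none then 3 else 2) (by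
          intro i
          split_ifs <;> norm_num)
      rw [Fintype.prod_option] at this
      simpa using this

theorem isGreatest_sigma (n : ℕ) : IsGreatest (comValues n) (sigmaMax n) := by
  constructor
  · obtain ⟨A, hA, R, hcard, hle⟩ := exists_sigma n
    refine ⟨A, hA, R, hcard, le_antisymm ?_ hle⟩
    rw [← hcard]
    exact numComplete_le R
  · rintro k ⟨A, hA, R, hcard, rfl⟩
    rw [← hcard]
    exact numComplete_le R

end Lower

end Pool.Agent.N375.AF
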