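import Mathlib

/-!
# Argumentation frameworks: definitions

An argumentation framework is a type `A` of arguments with an attack relation `R : A → A → Prop`
(`R a b` means that `a` attacks `b`; self-attacks are allowed).
-/

namespace Pool.Agent.N375.AF

/-- `S` is conflict-free: no member attacks a member. -/
def ConflictFree {A : Type} (R : A → A → Prop) (S : Set A) : Prop :=
  ¬ ∃ a ∈ S, ∃ b ∈ S, R a b

/-- `S` defends `a`: every attacker `b` of `a` is attacked by some `c ∈ S`. -/
def Defends {A : Type} (R : A → A → Prop) (S : Set A) (a : A) : Prop :=
  ∀ b, R b a → ∃ c ∈ S, R c b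

/-- `S` is admissible: conflict-free and defends each of its elements. -/
def Admissible {A : Type} (R : A → A → Prop) (S : Set A) : Prop :=
  ConflictFree R S ∧ ∀ a ∈ S, Defends R S a

/-- `S` is a complete extension: admissible and contains every argument that it defends. -/
def IsComplete {A : Type} (R : A → A → Prop) (S : Set A) : Prop :=
  Admissible R S ∧ ∀ a, Defends R S a → a ∈ S

/-- The number of complete extensions of the framework `(A, R)`. -/
noncomputable def numComplete {A : Type} (R : A → A → Prop) : ℕ :=
  {S : Set A | IsComplete R S}.ncard

/-- The set of all values `|com(F)|` for argumentation frameworks `F = (A, R)` with `|A| = n`. -/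
def comValues (n : ℕ) : Set ℕ :=
  {k | ∃ (A : Type) (_ : Fintype A) (R : A → A → Prop),
    Fintype.card A = n ∧ numComplete R = k}

/-- The conjectured value of `σ_max(n)`. -/
def sigmaMax (n : ℕ) : ℕ :=
  if n ≤ 1 then 1 else if Even n then 3 ^ (n / 2) else 4 * 3 ^ ((n - 3) / 2)

end Pool.Agent.N375.AF
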