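import Pool.Agent.N375.ConnDefs

set_option autoImplicit false

/-!
In a connected graph the number of vertices of degree at least three is at most three times the
number of non-cut vertices; hence the density of connected sets of a graph of minimum degree at
least three is at most 24/25.
-/

namespace Pool.Agent.N375.Conn

open Finset Classical

universe u

variable {V : Type u} (G : SimpleGraph V)

/-- Connectedness of the induced subgraph on `U`, in terms of closed predicates. -/
def Cn (U : Finset V) : Prop :=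
  U.Nonempty ∧ ∀ P : V → Prop, (∀ a ∈ U, ∀ b ∈ U, P a → G.Adj a b → P b) →
    (∃ a ∈ U, P a) → ∀ b ∈ U, P b

variable {G}

lemma cn_iff (U : Finset V) : Cn G U ↔ (G.induce (U : Set V)).Connected := by
  constructor
  · rintro ⟨⟨u, hu⟩, h⟩
    have : Nonempty (U : Set V) := ⟨⟨u, hu⟩⟩
    refine SimpleGraph.Connected.mk ?_
    rintro ⟨a, ha⟩ ⟨b, hb⟩
    have h2 := h (fun v => ∃ hv : v ∈ U, (G.induce (U : Set V)).Reachable ⟨a, ha⟩ ⟨v, hv⟩) ?_
      ⟨a, ha, ha, SimpleGraph.Reachable.refl _⟩ b hb
    · obtain ⟨_, h3⟩ := h2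
      exact h3
    · rintro x hx y hy ⟨_, h3⟩ hxy
      refine ⟨hy, h3.trans ?_⟩
      apply SimpleGraph.Adj.reachable
      exact hxy
  · intro h
    obtain ⟨⟨u, hu⟩⟩ := h.nonempty
    refine ⟨⟨u, hu⟩, ?_⟩
    rintro P hP ⟨a, ha, hPa⟩ b hb
    obtain ⟨w⟩ := h.preconnected ⟨a, ha⟩ ⟨b, hb⟩
    by_contra hPb
    obtain ⟨d, -, h1, h2⟩ := w.exists_boundary_dart {v | P v.1} hPa hPb
    exact h2 (hP d.fst.1 d.fst.2 d.snd.1 d.snd.2 h1 d.adj)

lemma Cn.union {U W : Finset V} (hU : Cn G U) (hW : Cn G W) {z : V} (hz : z ∈ U) (hz' : z ∈ W) :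
    Cn G (U ∪ W) := by
  refine ⟨⟨z, mem_union_left _ hz⟩, ?_⟩
  rintro P hP ⟨a, ha, hPa⟩
  have hPU : ∀ a ∈ U, ∀ b ∈ U, P a → G.Adj a b → P b := fun a ha b hb =>
    hP a (mem_union_left _ ha) b (mem_union_left _ hb)
  have hPW : ∀ a ∈ W, ∀ b ∈ W, P a → G.Adj a b → P b := fun a ha b hb =>
    hP a (mem_union_right _ ha) b (mem_union_right _ hb)
  have hPz : P z := by
    rcases mem_union.1 ha with h | h
    · exact hU.2 P hPU ⟨a, h, hPa⟩ z hz
    · exact hW.2 P hPW ⟨a, h, hPa⟩ z hz'
  intro b hb
  rcases mem_union.1 hb with h | h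
  · exact hU.2 P hPU ⟨z, hz, hPz⟩ b h
  · exact hW.2 P hPW ⟨z, hz', hPz⟩ b h

/-- one side of a cut vertex, together with the cut vertex, is connected -/
lemma side_conn {U : Finset V} (hU : Cn G U) {x : V} (hx : x ∈ U) (P : V → Prop)
    (hP : ∀ a ∈ U.erase x, ∀ b ∈ U.erase x, P a → G.Adj a b → P b) :
    Cn G (U.filter fun v => v = x ∨ P v) := by
  have hxm : x ∈ U.filter fun v => v = x ∨ P v := by simp [hx]
  refine ⟨⟨x, hxm⟩, ?_⟩
  rintro Q hQ ⟨a, ha, hQa⟩
  by_cases hQx : Q x
  · -- `R` holds on the other side and where `Q` holds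
    have h := hU.2 (fun v => (v = x ∨ ¬ P v) ∨ Q v) ?_ ⟨x, hx, Or.inl (Or.inl rfl)⟩
    · intro b hb
      obtain ⟨hbU, hb2⟩ := mem_filter.1 hb
      rcases h b hbU with (h1 | h1) | h1
      · rw [h1]; exact hQx
      · rcases hb2 with h2 | h2
        · rw [h2]; exact hQx
        · exact absurd h2 h1
      · exact h1
    · intro a ha b hb hab hadj
      by_contra hcon
      push Not at hcon
      obtain ⟨⟨hbx, hPb⟩, hQb⟩ := hcon
      have hb' : b ∈ U.filter fun v => v = x ∨ P v := mem_filter.2 ⟨hb, Or.inr hPb⟩
      by_cases hax : a = x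
      · subst hax
        exact hQb (hQ a hxm b hb' hQx hadj)
      by_cases hPa : P a
      · have ha' : a ∈ U.filter fun v => v = x ∨ P v := mem_filter.2 ⟨ha, Or.inr hPa⟩
        rcases hab with (h1 | h1) | h1
        · exact hax h1
        · exact h1 hPa
        · exact hQb (hQ a ha' b hb' h1 hadj)
      · exact hPa (hP b (mem_erase.2 ⟨hbx, hb⟩) a (mem_erase.2 ⟨hax, ha⟩) hPb hadj.symm)
  · exfalso
    have h := hU.2 (fun v => (v ≠ x ∧ P v) ∧ Q v) ?_ ?_ x hx
    · exact h.1.1 rfl
    · rintro a ha b hb ⟨⟨hax, hPa⟩, hQa⟩ hadj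
      have ha' : a ∈ U.filter fun v => v = x ∨ P v := mem_filter.2 ⟨ha, Or.inr hPa⟩
      by_cases hbx : b = x
      · subst hbx
        exact absurd (hQ a ha' b hxm hQa hadj) hQx
      · have hPb := hP a (mem_erase.2 ⟨hax, ha⟩) b (mem_erase.2 ⟨hbx, hb⟩) hPa hadj
        exact ⟨⟨hbx, hPb⟩, hQ a ha' b (mem_filter.2 ⟨hb, Or.inr hPb⟩) hQa hadj⟩
    · obtain ⟨haU, ha2⟩ := mem_filter.1 ha
      refine ⟨a, haU, ⟨?_, ?_⟩, hQa⟩
      · rintro rfl; exact hQx hQa
      · rcases ha2 with h2 | h2
        · subst h2; exact absurd hQa hQx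
        · exact h2

/-- Removing a vertex of the first side: the whole stays connected iff the side does. -/
lemma erase_iff {U U1 U2 : Finset V} {x : V} (hU : U = U1 ∪ U2) (hx1 : x ∈ U1) (hx2 : x ∈ U2)
    (hint : ∀ v ∈ U1, v ∈ U2 → v = x) (hno : ∀ a ∈ U1, ∀ b ∈ U2, a ≠ x → b ≠ x → ¬ G.Adj a b)
    (h2 : Cn G U2) {v : V} (hv : v ∈ U1) (hvx : v ≠ x) :
    Cn G (U.erase v) ↔ Cn G (U1.erase v) := by
  have hv2 : v ∉ U2 := fun h => hvx (hint v hv h)
  have e : U.erase v = U1.erase v ∪ U2 := by
    rw [hU, erase_union_distrib, erase_eq_of_notMem hv2]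
  have hx1' : x ∈ U1.erase v := mem_erase.2 ⟨hvx.symm, hx1⟩
  rw [e]
  constructor
  · intro h
    refine ⟨⟨x, hx1'⟩, ?_⟩
    rintro P hP ⟨a, ha, hPa⟩ b hb
    by_cases hPx : P x
    · have h3 := h.2 (fun w => w ∈ U2 ∨ P w) ?_ ⟨x, mem_union_left _ hx1', Or.inr hPx⟩ b
        (mem_union_left _ hb)
      · rcases h3 with h3 | h3
        · have := hint b (mem_of_mem_erase hb) h3
          rw [this]; exact hPx
        · exact h3
      · intro a ha b hb hab hadj
        by_cases hb2 : b ∈ U2
        · exact Or.inl hb2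
        right
        have hb1 : b ∈ U1.erase v := by
          rcases mem_union.1 hb with h4 | h4
          · exact h4
          · exact absurd h4 hb2
        by_cases ha1 : a ∈ U1.erase v
        · rcases hab with h4 | h4
          · have hax := hint a (mem_of_mem_erase ha1) h4
            subst hax
            exact hP a ha1 b hb1 hPx hadj
          · exact hP a ha1 b hb1 h4 hadj
        · have ha2 : a ∈ U2 := by
            rcases mem_union.1 ha with h4 | h4
            · exact absurd h4 ha1
            · exact h4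
          have hax : a ≠ x := by rintro rfl; exact ha1 hx1'
          have hbx : b ≠ x := by rintro rfl; exact hb2 hx2
          exact absurd hadj.symm (hno b (mem_of_mem_erase hb1) a ha2 hbx hax)
    · exfalso
      have h3 := h.2 (fun w => w ∈ U1.erase v ∧ P w) ?_ ⟨a, mem_union_left _ ha, ha, hPa⟩ x
        (mem_union_left _ hx1')
      · exact hPx h3.2
      · rintro a ha b hb ⟨ha1, hPa'⟩ hadj
        by_cases hb1 : b ∈ U1.erase v
        · exact ⟨hb1, hP a ha1 b hb1 hPa' hadj⟩
        · have hb2 : b ∈ U2 := by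
            rcases mem_union.1 hb with h4 | h4
            · exact absurd h4 hb1
            · exact h4
          have hax : a ≠ x := by rintro rfl; exact hPx hPa'
          have hbx : b ≠ x := by rintro rfl; exact hb1 hx1'
          exact absurd hadj (hno a (mem_of_mem_erase ha1) b hb2 hax hbx)
  · intro h
    exact h.union h2 hx1' hx2

/-- non-cut vertices -/
noncomputable def Qs (G : SimpleGraph V) (U : Finset V) : Finset V :=
  U.filter fun v => Cn G (U.erase v)

/-- degree inside `U` -/
noncomputable def dg (G : SimpleGraph V) (U : Finset V) (v : V) : ℕ := (U.filter fun w => G.Adj v w).card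

/-- vertices of degree at least three, and non-cut vertices of degree two -/
noncomputable def Ts (G : SimpleGraph V) (U : Finset V) : Finset V :=
  U.filter fun v => 3 ≤ dg G U v ∨ (dg G U v = 2 ∧ v ∈ Qs G U)

/-- `|T| ≤ 3 (|Q| - 2)`. -/
theorem key (n : ℕ) : ∀ U : Finset V, U.card = n → Cn G U → 2 ≤ U.card →
    (Ts G U).card + 6 ≤ 3 * (Qs G U).card := by
  induction n using Nat.strong_induction_on with
  | _ n ih =>
    intro U hn hU h2
    by_cases hall : ∀ v ∈ U, Cn G (U.erase v)
    · have hQ : Qs G U = U := filter_true_of_mem hall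
      rw [hQ]
      rcases Nat.lt_or_ge U.card 3 with h3 | h3
      · have hT : Ts G U = ∅ := by
          refine filter_eq_empty_iff.2 ?_
          intro v hv
          have hd : dg G U v ≤ 1 := by
            have hsub : (U.filter fun w => G.Adj v w) ⊆ U.erase v := by
              intro w hw
              obtain ⟨hw1, hw2⟩ := mem_filter.1 hw
              exact mem_erase.2 ⟨hw2.ne', hw1⟩
            have := card_le_card hsub
            rw [card_erase_of_mem hv] at this
            unfold dg
            omega
          rintro (h4 | ⟨h4, -⟩) <;> omega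
        rw [hT, card_empty]; omega
      · have := card_le_card (filter_subset (fun v => 3 ≤ dg G U v ∨ (dg G U v = 2 ∧ v ∈ Qs G U)) U)
        change (Ts G U).card ≤ _ at this
        omega
    · push Not at hall
      obtain ⟨x, hx, hxc⟩ := hall
      -- split at the cut vertex
      have hne : (U.erase x).Nonempty := by
        rw [← card_pos, card_erase_of_mem hx]; omega
      have hex : ∃ P : V → Prop, (∀ a ∈ U.erase x, ∀ b ∈ U.erase x, P a → G.Adj a b → P b) ∧
          (∃ a ∈ U.erase x, P a) ∧ ∃ b ∈ U.erase x, ¬ P b := by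
        by_contra hcon
        apply hxc
        refine ⟨hne, ?_⟩
        intro P h1 h2 b hb
        by_contra h3
        exact hcon ⟨P, h1, h2, b, hb, h3⟩
      obtain ⟨P, hP, ⟨a, ha, hPa⟩, b, hb, hPb⟩ := hex
      have hP' : ∀ a ∈ U.erase x, ∀ b ∈ U.erase x, ¬ P a → G.Adj a b → ¬ P b :=
        fun a ha b hb h1 h2 h3 => h1 (hP b hb a ha h3 h2.symm)
      set U1 := U.filter fun v => v = x ∨ P v with hU1
      set U2 := U.filter fun v => v = x ∨ ¬ P v with hU2
      have c1 : Cn G U1 := side_conn hU hx P hP
      have c2 : Cn G U2 := by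
        have := side_conn hU hx (fun v => ¬ P v) hP'
        convert this
      have hx1 : x ∈ U1 := by simp [hU1, hx]
      have hx2 : x ∈ U2 := by simp [hU2, hx]
      have hUU : U = U1 ∪ U2 := by
        ext v
        simp only [hU1, hU2, mem_union, mem_filter]
        by_cases hv : P v <;> tauto
      have hint : ∀ v ∈ U1, v ∈ U2 → v = x := by
        intro v h3 h4
        simp only [hU1, hU2, mem_filter] at h3 h4
        tauto
      have hno : ∀ a ∈ U1, ∀ b ∈ U2, a ≠ x → b ≠ x → ¬ G.Adj a b := by
        intro a ha b hb hax hbx hadj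
        simp only [hU1, hU2, mem_filter] at ha hb
        have hPa : P a := by tauto
        have hPb : ¬ P b := by tauto
        exact hPb (hP a (mem_erase.2 ⟨hax, ha.1⟩) b (mem_erase.2 ⟨hbx, hb.1⟩) hPa hadj)
      have hno' : ∀ a ∈ U2, ∀ b ∈ U1, a ≠ x → b ≠ x → ¬ G.Adj a b :=
        fun a ha b hb h1 h2 h3 => hno b hb a ha h2 h1 h3.symm
      have hax : a ≠ x := (mem_erase.1 ha).1
      have hbx : b ≠ x := (mem_erase.1 hb).1
      have ha1 : a ∈ U1 := by simp [hU1, (mem_erase.1 ha).2, hPa]
      have hb2 : b ∈ U2 := by simp [hU2, (mem_erase.1 hb).2, hPb]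
      have hb1 : b ∉ U1 := fun h => hbx (hint b h hb2)
      have ha2 : a ∉ U2 := fun h => hax (hint a ha1 h)
      have s1 : U1 ⊆ U := filter_subset _ _
      have s2 : U2 ⊆ U := filter_subset _ _
      have k1 : U1.card < n := by
        rw [← hn]
        exact card_lt_card ⟨s1, fun h => hb1 (h (mem_of_mem_erase hb))⟩
      have k2 : U2.card < n := by
        rw [← hn]
        exact card_lt_card ⟨s2, fun h => ha2 (h (mem_of_mem_erase ha))⟩
      have m1 : 2 ≤ U1.card := by
        rw [← card_pair hax.symm]
        apply card_le_card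
        intro v hv
        rcases mem_insert.1 hv with rfl | hv
        · exact hx1
        · rw [mem_singleton.1 hv]; exact ha1
      have m2 : 2 ≤ U2.card := by
        rw [← card_pair hbx.symm]
        apply card_le_card
        intro v hv
        rcases mem_insert.1 hv with rfl | hv
        · exact hx2
        · rw [mem_singleton.1 hv]; exact hb2
      have i1 := ih U1.card k1 U1 rfl c1 m1
      have i2 := ih U2.card k2 U2 rfl c2 m2
      -- non-cut vertices
      have hQ : Qs G U = (Qs G U1).erase x ∪ (Qs G U2).erase x := by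
        ext v
        simp only [Qs, mem_filter, mem_union, mem_erase]
        constructor
        · rintro ⟨hv, hc⟩
          have hvx : v ≠ x := by rintro rfl; exact hxc hc
          rw [hUU] at hv
          rcases mem_union.1 hv with h3 | h3
          · left
            exact ⟨hvx, h3, (erase_iff hUU hx1 hx2 hint hno c2 h3 hvx).1 hc⟩
          · right
            refine ⟨hvx, h3, (erase_iff (hUU.trans (union_comm _ _)) hx2 hx1
              (fun v h5 h6 => hint v h6 h5) hno' c1 h3 hvx).1 hc⟩
        · rintro (⟨hvx, h3, h4⟩ | ⟨hvx, h3, h4⟩)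
          · exact ⟨s1 h3, (erase_iff hUU hx1 hx2 hint hno c2 h3 hvx).2 h4⟩
          · exact ⟨s2 h3, (erase_iff (hUU.trans (union_comm _ _)) hx2 hx1
              (fun v h5 h6 => hint v h6 h5) hno' c1 h3 hvx).2 h4⟩
      have hQd : Disjoint ((Qs G U1).erase x) ((Qs G U2).erase x) := by
        rw [disjoint_left]
        intro v h3 h4
        obtain ⟨hvx, h3⟩ := mem_erase.1 h3
        obtain ⟨-, h4⟩ := mem_erase.1 h4
        exact hvx (hint v (mem_filter.1 h3).1 (mem_filter.1 h4).1)
      have hQc : (Qs G U).card = ((Qs G U1).erase x).card + ((Qs G U2).erase x).card := by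
        rw [hQ, card_union_of_disjoint hQd]
      -- degrees
      have d1 : ∀ v ∈ U1, v ≠ x → dg G U v = dg G U1 v := by
        intro v hv hvx
        unfold dg
        congr 1
        ext w
        simp only [mem_filter]
        constructor
        · rintro ⟨hw, hadj⟩
          refine ⟨?_, hadj⟩
          rw [hUU] at hw
          rcases mem_union.1 hw with h3 | h3
          · exact h3
          · by_cases hwx : w = x
            · rw [hwx]; exact hx1
            · exact absurd hadj (hno v hv w h3 hvx hwx)
        · rintro ⟨hw, hadj⟩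
          exact ⟨s1 hw, hadj⟩
      have d2 : ∀ v ∈ U2, v ≠ x → dg G U v = dg G U2 v := by
        intro v hv hvx
        unfold dg
        congr 1
        ext w
        simp only [mem_filter]
        constructor
        · rintro ⟨hw, hadj⟩
          refine ⟨?_, hadj⟩
          rw [hUU] at hw
          rcases mem_union.1 hw with h3 | h3
          · by_cases hwx : w = x
            · rw [hwx]; exact hx2
            · exact absurd hadj (hno' v hv w h3 hvx hwx)
          · exact h3
        · rintro ⟨hw, hadj⟩
          exact ⟨s2 hw, hadj⟩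
      have dx : dg G U x = dg G U1 x + dg G U2 x := by
        unfold dg
        rw [← card_union_of_disjoint]
        · congr 1
          rw [← filter_union, ← hUU]
        · rw [disjoint_left]
          intro v h3 h4
          obtain ⟨h3, h5⟩ := mem_filter.1 h3
          obtain ⟨h4, -⟩ := mem_filter.1 h4
          exact h5.ne' (hint v h3 h4)
      -- the set `Ts`
      have hTsub : Ts G U ⊆ ((Ts G U1).erase x ∪ (Ts G U2).erase x) ∪
          (if 3 ≤ dg G U x then {x} else ∅) := by
        intro v hv
        obtain ⟨hvU, hv2⟩ := mem_filter.1 hv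
        by_cases hvx : v = x
        · subst hvx
          have h3 : 3 ≤ dg G U v := by
            rcases hv2 with h3 | ⟨-, h3⟩
            · exact h3
            · exact absurd (mem_filter.1 h3).2 hxc
          rw [if_pos h3]
          exact mem_union_right _ (mem_singleton_self _)
        · apply mem_union_left
          rw [hUU] at hvU
          rcases mem_union.1 hvU with h3 | h3
          · apply mem_union_left
            refine mem_erase.2 ⟨hvx, mem_filter.2 ⟨h3, ?_⟩⟩
            rw [d1 v h3 hvx] at hv2
            rcases hv2 with h4 | ⟨h4, h5⟩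
            · exact Or.inl h4
            · refine Or.inr ⟨h4, mem_filter.2 ⟨h3, ?_⟩⟩
              exact (erase_iff hUU hx1 hx2 hint hno c2 h3 hvx).1 (mem_filter.1 h5).2
          · apply mem_union_right
            refine mem_erase.2 ⟨hvx, mem_filter.2 ⟨h3, ?_⟩⟩
            rw [d2 v h3 hvx] at hv2
            rcases hv2 with h4 | ⟨h4, h5⟩
            · exact Or.inl h4
            · refine Or.inr ⟨h4, mem_filter.2 ⟨h3, ?_⟩⟩
              exact (erase_iff (hUU.trans (union_comm _ _)) hx2 hx1
                (fun v h5 h6 => hint v h6 h5) hno' c1 h3 hvx).1 (mem_filter.1 h5).2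
      have hTc : (Ts G U).card ≤ ((Ts G U1).erase x).card + ((Ts G U2).erase x).card +
          (if 3 ≤ dg G U x then 1 else 0) := by
        refine (card_le_card hTsub).trans ((card_union_le _ _).trans ?_)
        refine add_le_add (card_union_le _ _) ?_
        split_ifs <;> simp
      -- membership of `x`
      have e1 : ((Qs G U1).erase x).card + (if x ∈ Qs G U1 then 1 else 0) = (Qs G U1).card := by
        split_ifs with h
        · exact card_erase_add_one h
        · rw [erase_eq_of_notMem h]; rfl
      have e2 : ((Qs G U2).erase x).card + (if x ∈ Qs G U2 then 1 else 0) = (Qs G U2).card := by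
        split_ifs with h
        · exact card_erase_add_one h
        · rw [erase_eq_of_notMem h]; rfl
      have f1 : ((Ts G U1).erase x).card + (if x ∈ Ts G U1 then 1 else 0) = (Ts G U1).card := by
        split_ifs with h
        · exact card_erase_add_one h
        · rw [erase_eq_of_notMem h]; rfl
      have f2 : ((Ts G U2).erase x).card + (if x ∈ Ts G U2 then 1 else 0) = (Ts G U2).card := by
        split_ifs with h
        · exact card_erase_add_one h
        · rw [erase_eq_of_notMem h]; rfl
      by_cases q1 : x ∈ Qs G U1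
      · by_cases q2 : x ∈ Qs G U2
        · by_cases h3 : 3 ≤ dg G U x
          · have ht : x ∈ Ts G U1 ∨ x ∈ Ts G U2 := by
              rw [dx] at h3
              rcases Nat.lt_or_ge (dg G U1 x) 2 with h4 | h4
              · right
                refine mem_filter.2 ⟨hx2, ?_⟩
                rcases Nat.lt_or_ge (dg G U2 x) 3 with h5 | h5
                · exact Or.inr ⟨by omega, q2⟩
                · exact Or.inl h5
              · left
                refine mem_filter.2 ⟨hx1, ?_⟩
                rcases Nat.lt_or_ge (dg G U1 x) 3 with h5 | h5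
                · exact Or.inr ⟨by omega, q1⟩
                · exact Or.inl h5
            rw [if_pos q1] at e1
            rw [if_pos q2] at e2
            rw [if_pos h3] at hTc
            rcases ht with ht | ht
            · rw [if_pos ht] at f1
              split_ifs at f2 <;> omega
            · rw [if_pos ht] at f2
              split_ifs at f1 <;> omega
          · rw [if_neg h3] at hTc
            rw [if_pos q1] at e1
            rw [if_pos q2] at e2
            split_ifs at f1 f2 <;> omega
        · rw [if_neg q2] at e2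
          rw [if_pos q1] at e1
          split_ifs at f1 f2 hTc <;> omega
      · rw [if_neg q1] at e1
        split_ifs at f1 f2 hTc e2 <;> omega

/-! ### counting -/

section count

variable [Fintype V]

/-- the connected sets -/
noncomputable def CC (G : SimpleGraph V) : Finset (Finset V) := univ.filter fun U => Cn G U

lemma CC_eq : connectedSets G = CC G := by
  unfold connectedSets CC
  ext U
  simp only [mem_filter, mem_univ, true_and]
  exact (cn_iff U).symm

/-- double counting of the pairs `(U, U \ v)` of connected sets -/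
lemma sum_Q : ∑ U ∈ CC G, (Qs G U).card ≤ ∑ W ∈ CC G, (univ \ W).card := by
  rw [← card_sigma, ← card_sigma]
  refine card_le_card_of_injOn (fun p => ⟨p.1.erase p.2, p.2⟩) ?_ ?_
  · rintro ⟨U, v⟩ h
    obtain ⟨h1, h2⟩ := mem_sigma.1 h
    obtain ⟨h3, h4⟩ := mem_filter.1 h2
    refine mem_sigma.2 ⟨mem_filter.2 ⟨mem_univ _, h4⟩, ?_⟩
    simp
  · rintro ⟨U, v⟩ h ⟨U', v'⟩ h' heq
    simp only [Sigma.mk.injEq, heq_eq_eq] at heq
    obtain ⟨e1, e2⟩ := heq
    subst e2
    have h1 : v ∈ U := (mem_filter.1 (mem_sigma.1 h).2).1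
    have h2 : v ∈ U' := (mem_filter.1 (mem_sigma.1 h').2).1
    rw [← insert_erase h1, e1, insert_erase h2]

/-- one vertex with three neighbours -/
lemma star {x a b c : V} (ha : G.Adj x a) (hb : G.Adj x b) (hc : G.Adj x c) :
    Cn G {x, a, b, c} := by
  refine ⟨⟨x, by simp⟩, ?_⟩
  rintro P hP ⟨y, hy, hPy⟩
  have hx : x ∈ ({x, a, b, c} : Finset V) := by simp
  have hPx : P x := by
    simp only [mem_insert, mem_singleton] at hy
    rcases hy with rfl | rfl | rfl | rfl
    · exact hPy
    · exact hP y (by simp) x hx hPy ha.symm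
    · exact hP y (by simp) x hx hPy hb.symm
    · exact hP y (by simp) x hx hPy hc.symm
  intro y hy
  have hy2 := hy
  simp only [mem_insert, mem_singleton] at hy2
  rcases hy2 with rfl | rfl | rfl | rfl
  · exact hPx
  · exact hP x hx y hy hPx ha
  · exact hP x hx y hy hPx hb
  · exact hP x hx y hy hPx hc

lemma count_x {x a b c : V} (ha : G.Adj x a) (hb : G.Adj x b) (hc : G.Adj x c)
    (hab : a ≠ b) (hac : a ≠ c) (hbc : b ≠ c) :
    ((CC G).filter fun U => x ∈ U).card ≤ 8 * ((CC G).filter fun U => x ∈ Ts G U).card := by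
  set T : Finset V := {x, a, b, c} with hT
  have hmaps : ∀ U ∈ (CC G).filter fun U => x ∈ U, U ∪ T ∈ (CC G).filter fun U => x ∈ Ts G U := by
    intro U hU
    obtain ⟨h1, h2⟩ := mem_filter.1 hU
    obtain ⟨-, h3⟩ := mem_filter.1 h1
    have hxT : x ∈ T := by rw [hT]; exact mem_insert_self _ _
    have h4 : Cn G (U ∪ T) := h3.union (star ha hb hc) h2 hxT
    refine mem_filter.2 ⟨mem_filter.2 ⟨mem_univ _, h4⟩, mem_filter.2 ⟨mem_union_left _ h2, Or.inl ?_⟩⟩
    have h5 : ({a, b, c} : Finset V) ⊆ (U ∪ T).filter fun w => G.Adj x w := by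
      intro w hw
      simp only [mem_insert, mem_singleton] at hw
      refine mem_filter.2 ⟨mem_union_right _ ?_, ?_⟩
      · simp only [hT, mem_insert, mem_singleton]
        tauto
      · rcases hw with rfl | rfl | rfl
        · exact ha
        · exact hb
        · exact hc
    have h6 := card_le_card h5
    rw [card_eq_three.2 ⟨a, b, c, hab, hac, hbc, rfl⟩] at h6
    exact h6
  refine card_le_mul_card_image_of_maps_to hmaps 8 ?_
  intro W hW
  have h8 : (({a, b, c} : Finset V).powerset).card = 8 := by
    rw [card_powerset, card_eq_three.2 ⟨a, b, c, hab, hac, hbc, rfl⟩]; rfl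
  rw [← h8]
  refine card_le_card_of_injOn (fun U => U ∩ {a, b, c}) ?_ ?_
  · intro U _
    exact mem_powerset.2 inter_subset_right
  · intro U hU U' hU' heq
    simp only [coe_filter, Set.mem_ofPred_eq, mem_filter] at hU hU'
    obtain ⟨⟨-, hxU⟩, eU⟩ := hU
    obtain ⟨⟨-, hxU'⟩, eU'⟩ := hU'
    have heq' : U ∩ {a, b, c} = U' ∩ {a, b, c} := heq
    ext v
    by_cases hv : v ∈ T
    · by_cases hvx : v = x
      · subst hvx
        exact ⟨fun _ => hxU', fun _ => hxU⟩
      · have hv3 : v ∈ ({a, b, c} : Finset V) := by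
          simp only [hT, mem_insert, mem_singleton] at hv ⊢
          tauto
        have h9 : v ∈ U ∩ {a, b, c} ↔ v ∈ U' ∩ {a, b, c} := by rw [heq']
        simp only [mem_inter, hv3, and_true] at h9
        exact h9
    · have h9 : v ∈ U ∪ T ↔ v ∈ U' ∪ T := by rw [eU, eU']
      simp only [mem_union, hv, or_false] at h9
      exact h9

lemma exists_three (x : V) (h : 3 ≤ (G.neighborSet x).ncard) :
    ∃ a b c, G.Adj x a ∧ G.Adj x b ∧ G.Adj x c ∧ a ≠ b ∧ a ≠ c ∧ b ≠ c := by
  rw [Set.ncard_eq_toFinset_card'] at h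
  obtain ⟨t, ht, ht3⟩ := exists_subset_card_eq h
  obtain ⟨a, b, c, hab, hac, hbc, rfl⟩ := card_eq_three.1 ht3
  refine ⟨a, b, c, ?_, ?_, ?_, hab, hac, hbc⟩
  · have := ht (show a ∈ ({a, b, c} : Finset V) by simp)
    simpa using this
  · have := ht (show b ∈ ({a, b, c} : Finset V) by simp)
    simpa using this
  · have := ht (show c ∈ ({a, b, c} : Finset V) by simp)
    simpa using this

lemma sum_card_eq (F : Finset V → Finset V) :
    ∑ U ∈ CC G, (F U).card = ∑ x : V, ((CC G).filter fun U => x ∈ F U).card := by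
  have h1 : ∀ U ∈ CC G, (F U).card = ∑ x : V, if x ∈ F U then 1 else 0 := by
    intro U _
    rw [sum_boole]
    simp
  rw [sum_congr rfl h1, sum_comm]
  refine sum_congr rfl fun x _ => ?_
  rw [sum_boole]
  simp

lemma T_le_Q {U : Finset V} (hU : Cn G U) : (Ts G U).card ≤ 3 * (Qs G U).card := by
  rcases Nat.lt_or_ge U.card 2 with h | h
  · have : Ts G U = ∅ := by
      refine filter_eq_empty_iff.2 ?_
      intro v hv
      have hd : dg G U v = 0 := by
        unfold dg
        rw [card_eq_zero, filter_eq_empty_iff]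
        intro w hw hadj
        have h3 : U.card = 1 := by
          have := card_pos.2 ⟨v, hv⟩
          omega
        obtain ⟨z, hz⟩ := card_eq_one.1 h3
        rw [hz, mem_singleton] at hv hw
        subst hv hw
        exact hadj.ne rfl
      rintro (h4 | ⟨h4, -⟩) <;> omega
    rw [this]; simp
  · have := key U.card U rfl hU h
    omega

theorem main_nat (h3 : ∀ v, 3 ≤ (G.neighborSet v).ncard) :
    25 * ∑ U ∈ CC G, U.card ≤ 24 * ((CC G).card * Fintype.card V) := by
  have h1 : ∑ U ∈ CC G, U.card ≤ 8 * ∑ U ∈ CC G, (Ts G U).card := by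
    rw [sum_card_eq (fun U => U), sum_card_eq (fun U => Ts G U), mul_sum]
    refine sum_le_sum fun x _ => ?_
    obtain ⟨a, b, c, ha, hb, hc, hab, hac, hbc⟩ := exists_three x (h3 x)
    exact count_x ha hb hc hab hac hbc
  have h2 : ∑ U ∈ CC G, (Ts G U).card ≤ 3 * ∑ U ∈ CC G, (Qs G U).card := by
    rw [mul_sum]
    exact sum_le_sum fun U hU => T_le_Q (mem_filter.1 hU).2
  have h4 := sum_Q (G := G)
  have h5 : ∑ W ∈ CC G, (univ \ W).card + ∑ W ∈ CC G, W.card = (CC G).card * Fintype.card V := by
    rw [← sum_add_distrib]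
    have : ∀ W ∈ CC G, (univ \ W).card + W.card = Fintype.card V := by
      intro W _
      rw [card_sdiff_add_card_eq_card (subset_univ _), card_univ]
    rw [sum_congr rfl this, sum_const, smul_eq_mul]
  omega

theorem density_le (h3 : ∀ v, 3 ≤ (G.neighborSet v).ncard) : density G ≤ 24 / 25 := by
  unfold density
  rw [CC_eq]
  have h := main_nat h3
  have h' : (25 : ℝ) * ∑ U ∈ CC G, (U.card : ℝ) ≤ 24 * ((CC G).card * Fintype.card V) := by
    exact_mod_cast h
  rw [div_div]
  rcases eq_or_lt_of_le (show (0 : ℝ) ≤ (CC G).card * Fintype.card V by positivity) with h0 | h0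
  · rw [← h0, div_zero]; norm_num
  · rw [div_le_iff₀ h0]
    linarith

end count

end Pool.Agent.N375.Conn
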