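import Mathlib

set_option autoImplicit false

/-!
Definitions for MP_345bc6_co: connected sets of a finite graph and their density.
-/

namespace Pool.Agent.N375.Conn

universe u

open Classical in
/-- The connected sets of `G`: the (nonempty) vertex sets that induce a connected subgraph. -/
noncomputable def connectedSets {V : Type u} [Fintype V] (G : SimpleGraph V) :
    Finset (Finset V) :=
  Finset.univ.filter fun U => (G.induce (U : Set V)).Connected

/-- The density of connected sets: the mean order of a connected set divided by the order of
the graph. -/
noncomputable def density {V : Type u} [Fintype V] (G : SimpleGraph V) : ℝ :=
  (∑ U ∈ connectedSets G, (U.card : ℝ)) / (connectedSets G).card / Fintype.card V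

end Pool.Agent.N375.Conn
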