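import Pool.Agent.N375.Conn

set_option autoImplicit false

/-!
MP_345bc6_co: the density of connected sets of a graph of minimum degree at least three is at
most `24/25`.
-/

namespace Pool.Agent.N375.DensityBound

open Pool.Agent.N375.Conn

universe u

/-- Every finite simple graph in which every vertex has at least three neighbours (in particular
every connected one) has density of connected sets at most `24/25`. -/
theorem result : ∀ (V : Type u) [Fintype V] (G : SimpleGraph V),
    (∀ v, 3 ≤ (G.neighborSet v).ncard) → density G ≤ 24 / 25 :=
  fun _ _ _ h => density_le h

end Pool.Agent.N375.DensityBound
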