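import Pool.Agent.N375.LevyDefs

set_option autoImplicit false

/-!
The Levy dragon is a 2-reptile with a hole.
-/

open Set Metric Topology MeasureTheory

namespace Pool.Agent.N375.Rep

/-- the two similarities -/
noncomputable def f : Bool → ℂ → ℂ
  | false, z => ((1 + Complex.I) / 2) * z
  | true, z => ((1 - Complex.I) / 2) * z + (1 + Complex.I) / 2

lemma f_false_re (z : ℂ) : (f false z).re = (z.re - z.im) / 2 := by
  simp [f, Complex.mul_re]; ring
lemma f_false_im (z : ℂ) : (f false z).im = (z.re + z.im) / 2 := by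
  simp [f, Complex.mul_im]; ring
lemma f_true_re (z : ℂ) : (f true z).re = (z.re + z.im + 1) / 2 := by
  simp [f, Complex.mul_re]; ring
lemma f_true_im (z : ℂ) : (f true z).im = (z.im - z.re + 1) / 2 := by
  simp [f, Complex.mul_im]; ring

/-- the ratio -/
noncomputable def r : ℝ := (Real.sqrt 2)⁻¹

lemma r_pos : 0 < r := by unfold r; positivity
lemma r_lt : r < 1 := by
  unfold r
  rw [inv_lt_one_iff₀]
  right
  rw [Real.lt_sqrt] <;> norm_num
lemma r_sq : r ^ 2 = 1 / 2 := by
  unfold r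
  rw [inv_pow, Real.sq_sqrt (by norm_num)]; norm_num

/-- linear part as unit complex numbers -/
lemma norm_a : ‖(1 + Complex.I)‖ = Real.sqrt 2 := by
  rw [Complex.norm_def, Complex.normSq_apply]; norm_num

lemma norm_b : ‖(1 - Complex.I)‖ = Real.sqrt 2 := by
  rw [Complex.norm_def, Complex.normSq_apply]; norm_num

noncomputable def ua : Circle := ⟨(r : ℂ) * (1 + Complex.I), by
  show _ ∈ Metric.sphere (0 : ℂ) 1
  rw [mem_sphere_zero_iff_norm, norm_mul, norm_a, Complex.norm_real, Real.norm_of_nonneg r_pos.le]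
  unfold r
  exact inv_mul_cancel₀ (by positivity)⟩

noncomputable def ub : Circle := ⟨(r : ℂ) * (1 - Complex.I), by
  show _ ∈ Metric.sphere (0 : ℂ) 1
  rw [mem_sphere_zero_iff_norm, norm_mul, norm_b, Complex.norm_real, Real.norm_of_nonneg r_pos.le]
  unfold r
  exact inv_mul_cancel₀ (by positivity)⟩

/-- the two isometries -/
noncomputable def g (i : Fin 2) : ℂ ≃ᵢ ℂ :=
  if i = 0 then (rotation ua).toIsometryEquiv
  else (rotation ub).toIsometryEquiv.trans (IsometryEquiv.addRight ((1 + Complex.I) / 2))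

lemma rsq_c : (r : ℂ) * (r : ℂ) = 1 / 2 := by
  have := r_sq
  have h2 : ((r ^ 2 : ℝ) : ℂ) = ((1 / 2 : ℝ) : ℂ) := by rw [this]
  push_cast at h2
  rw [← h2]; ring

lemma g_zero (z : ℂ) : g 0 ((Real.sqrt (2 : ℕ))⁻¹ • z) = f false z := by
  have e : (Real.sqrt ((2 : ℕ) : ℝ))⁻¹ = r := by unfold r; norm_num
  rw [e]
  simp only [g, if_true, LinearIsometryEquiv.coe_toIsometryEquiv, ua, f, Complex.real_smul]
  show (r : ℂ) * (1 + Complex.I) * ((r : ℂ) * z) = _
  calc (r : ℂ) * (1 + Complex.I) * ((r : ℂ) * z) = ((r : ℂ) * (r : ℂ)) * ((1 + Complex.I) * z) := by ring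
    _ = _ := by rw [rsq_c]; ring

lemma g_one (z : ℂ) : g 1 ((Real.sqrt (2 : ℕ))⁻¹ • z) = f true z := by
  have e : (Real.sqrt ((2 : ℕ) : ℝ))⁻¹ = r := by unfold r; norm_num
  rw [e]
  simp only [g, one_ne_zero, if_false, IsometryEquiv.trans_apply,
    LinearIsometryEquiv.coe_toIsometryEquiv, ub, f, IsometryEquiv.addRight_apply,
    Complex.real_smul]
  show (r : ℂ) * (1 - Complex.I) * ((r : ℂ) * z) + (1 + Complex.I) / 2 = _
  calc (r : ℂ) * (1 - Complex.I) * ((r : ℂ) * z) + (1 + Complex.I) / 2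
      = ((r : ℂ) * (r : ℂ)) * ((1 - Complex.I) * z) + (1 + Complex.I) / 2 := by ring
    _ = _ := by rw [rsq_c]; ring

/-! ### distances -/

lemma dist_f (i : Bool) (z w : ℂ) : dist (f i z) (f i w) = r * dist z w := by
  cases i
  · rw [← g_zero, ← g_zero, (g 0).dist_eq, dist_smul₀]
    have e : (Real.sqrt ((2 : ℕ) : ℝ))⁻¹ = r := by unfold r; norm_num
    rw [e, Real.norm_of_nonneg r_pos.le]
  · rw [← g_one, ← g_one, (g 1).dist_eq, dist_smul₀]
    have e : (Real.sqrt ((2 : ℕ) : ℝ))⁻¹ = r := by unfold r; norm_num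
    rw [e, Real.norm_of_nonneg r_pos.le]

lemma f_inj (i : Bool) : Function.Injective (f i) := by
  intro z w h
  have h2 := dist_f i z w
  rw [h, dist_self] at h2
  have h3 : dist z w = 0 := by
    rcases mul_eq_zero.1 h2.symm with h4 | h4
    · exact absurd h4 r_pos.ne'
    · exact h4
  exact dist_eq_zero.1 h3

lemma f_cont (i : Bool) : Continuous (f i) := by
  cases i <;> (unfold f; fun_prop)

/-- the two inverse maps in coordinates -/
lemma f_false_inv (x y : ℝ) : f false ⟨x + y, y - x⟩ = ⟨x, y⟩ := by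
  apply Complex.ext
  · rw [f_false_re]; ring
  · rw [f_false_im]; ring

lemma f_true_inv (x y : ℝ) : f true ⟨x - y, x + y - 1⟩ = ⟨x, y⟩ := by
  apply Complex.ext
  · rw [f_true_re]; ring
  · rw [f_true_im]; ring

/-! ### the nested octagons -/

/-- an octagon mapped into itself by the two similarities -/
def H : Set ℂ := {z | -(1 / 2) ≤ z.re ∧ z.re ≤ 3 / 2 ∧ -(1 / 4) ≤ z.im ∧ z.im ≤ 1 ∧
  z.re + z.im ≤ 2 ∧ z.im - z.re ≤ 1 ∧ z.re - z.im ≤ 3 / 2 ∧ -(1 / 2) ≤ z.re + z.im}

lemma f_mem_H (i : Bool) {z : ℂ} (hz : z ∈ H) : f i z ∈ H := by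
  obtain ⟨h1, h2, h3, h4, h5, h6, h7, h8⟩ := hz
  cases i
  · simp only [H, mem_ofPred_eq, f_false_re, f_false_im]
    refine ⟨?_, ?_, ?_, ?_, ?_, ?_, ?_, ?_⟩ <;> linarith
  · simp only [H, mem_ofPred_eq, f_true_re, f_true_im]
    refine ⟨?_, ?_, ?_, ?_, ?_, ?_, ?_, ?_⟩ <;> linarith

lemma H_closed : IsClosed H := by
  unfold H
  have hr := Complex.continuous_re
  have hi := Complex.continuous_im
  refine IsClosed.and (isClosed_le (by fun_prop) (by fun_prop)) ?_
  refine IsClosed.and (isClosed_le (by fun_prop) (by fun_prop)) ?_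
  refine IsClosed.and (isClosed_le (by fun_prop) (by fun_prop)) ?_
  refine IsClosed.and (isClosed_le (by fun_prop) (by fun_prop)) ?_
  refine IsClosed.and (isClosed_le (by fun_prop) (by fun_prop)) ?_
  refine IsClosed.and (isClosed_le (by fun_prop) (by fun_prop)) ?_
  refine IsClosed.and (isClosed_le (by fun_prop) (by fun_prop)) ?_
  exact isClosed_le (by fun_prop) (by fun_prop)

lemma H_sub : H ⊆ closedBall 0 4 := by
  rintro z ⟨h1, h2, h3, h4, -⟩
  rw [mem_closedBall, dist_zero_right]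
  have h5 := Complex.norm_le_abs_re_add_abs_im z
  have h6 : |z.re| ≤ 3 / 2 := abs_le.2 ⟨by linarith, h2⟩
  have h7 : |z.im| ≤ 1 := abs_le.2 ⟨by linarith, h4⟩
  linarith

lemma H_compact : IsCompact H :=
  (isCompact_closedBall (0 : ℂ) 4).of_isClosed_subset H_closed H_sub

/-- the nested approximations -/
def K : ℕ → Set ℂ
  | 0 => H
  | n + 1 => f false '' K n ∪ f true '' K n

lemma K_compact (n : ℕ) : IsCompact (K n) := by
  induction n with
  | zero => exact H_compact
  | succ n ih => exact (ih.image (f_cont false)).union (ih.image (f_cont true))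

lemma K_succ_sub (n : ℕ) : K (n + 1) ⊆ K n := by
  induction n with
  | zero =>
    rintro z (⟨w, hw, rfl⟩ | ⟨w, hw, rfl⟩)
    · exact f_mem_H false hw
    · exact f_mem_H true hw
  | succ n ih =>
    exact union_subset_union (image_mono ih) (image_mono ih)

lemma K_anti : Antitone K := antitone_nat_of_succ_le K_succ_sub

lemma f_mem_K (i : Bool) {n : ℕ} {z : ℂ} (hz : z ∈ K n) : f i z ∈ K (n + 1) := by
  cases i
  · exact Or.inl ⟨z, hz, rfl⟩
  · exact Or.inr ⟨z, hz, rfl⟩

/-- the Levy dragon -/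
def X : Set ℂ := ⋂ n, K n

lemma X_sub_K (n : ℕ) : X ⊆ K n := iInter_subset _ _

lemma X_closed : IsClosed X := isClosed_iInter fun n => (K_compact n).isClosed

lemma X_compact : IsCompact X := H_compact.of_isClosed_subset X_closed (X_sub_K 0)

lemma f_mem_X (i : Bool) {z : ℂ} (hz : z ∈ X) : f i z ∈ X := by
  refine mem_iInter.2 fun n => K_succ_sub n (f_mem_K i (mem_iInter.1 hz n))

lemma X_split {z : ℂ} (hz : z ∈ X) : ∃ i, ∃ w ∈ X, f i w = z := by
  by_cases h : ∀ n, z ∈ f false '' K n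
  · obtain ⟨w, -, rfl⟩ := h 0
    refine ⟨false, w, mem_iInter.2 fun n => ?_, rfl⟩
    obtain ⟨w', hw', e⟩ := h n
    rwa [← f_inj false e]
  · push Not at h
    obtain ⟨m, hm⟩ := h
    have h2 : ∀ n, z ∈ f true '' K n := by
      intro n
      have h3 : z ∈ K (max m n + 1) := mem_iInter.1 hz _
      rcases h3 with h3 | h3
      · exact absurd (image_mono (K_anti (le_max_left m n)) h3) hm
      · exact image_mono (K_anti (le_max_right m n)) h3
    obtain ⟨w, -, rfl⟩ := h2 0
    refine ⟨true, w, mem_iInter.2 fun n => ?_, rfl⟩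
    obtain ⟨w', hw', e⟩ := h2 n
    rwa [← f_inj true e]

lemma X_eq : X = f false '' X ∪ f true '' X := by
  ext z
  constructor
  · intro hz
    obtain ⟨i, w, hw, rfl⟩ := X_split hz
    cases i
    · exact Or.inl ⟨w, hw, rfl⟩
    · exact Or.inr ⟨w, hw, rfl⟩
  · rintro (⟨w, hw, rfl⟩ | ⟨w, hw, rfl⟩)
    · exact f_mem_X false hw
    · exact f_mem_X true hw

lemma zero_mem : (0 : ℂ) ∈ X := by
  have h : ∀ n, (0 : ℂ) ∈ K n := by
    intro n
    induction n with
    | zero => simp [K, H]; norm_num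
    | succ n ih =>
      have := f_mem_K false ih
      simpa [f] using this
  exact mem_iInter.2 h

/-! ### points and segments of the dragon -/

lemma P0 {x y : ℝ} (h : (⟨x + y, y - x⟩ : ℂ) ∈ X) : (⟨x, y⟩ : ℂ) ∈ X := by
  rw [← f_false_inv]; exact f_mem_X false h

lemma P1 {x y : ℝ} (h : (⟨x - y, x + y - 1⟩ : ℂ) ∈ X) : (⟨x, y⟩ : ℂ) ∈ X := by
  rw [← f_true_inv]; exact f_mem_X true h

lemma P_split {x y : ℝ} (h : (⟨x, y⟩ : ℂ) ∈ X) :
    (⟨x + y, y - x⟩ : ℂ) ∈ X ∨ (⟨x - y, x + y - 1⟩ : ℂ) ∈ X := by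
  obtain ⟨i, w, hw, e⟩ := X_split h
  cases i
  · left
    rw [← f_false_inv] at e
    rwa [← f_inj false e]
  · right
    rw [← f_true_inv] at e
    rwa [← f_inj true e]

lemma P_H {x y : ℝ} (h : (⟨x, y⟩ : ℂ) ∈ X) : -(1 / 2) ≤ x ∧ x ≤ 3 / 2 ∧ -(1 / 4) ≤ y ∧ y ≤ 1 ∧
    x + y ≤ 2 ∧ y - x ≤ 1 ∧ x - y ≤ 3 / 2 ∧ -(1 / 2) ≤ x + y := X_sub_K 0 h

/-- the top segment -/
lemma PT {x : ℝ} (h0 : 0 ≤ x) (h1 : x ≤ 1) : (⟨x, 1⟩ : ℂ) ∈ X := by
  have key : ∀ n : ℕ, ∀ x : ℝ, 0 ≤ x → x ≤ 1 → (⟨x, 1⟩ : ℂ) ∈ K n := by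
    intro n
    induction n using Nat.strong_induction_on with
    | _ n ih =>
      intro x h0 h1
      match n, ih with
      | 0, _ => simp only [K, H, mem_ofPred_eq]; refine ⟨?_, ?_, ?_, ?_, ?_, ?_, ?_, ?_⟩ <;> linarith
      | 1, ih =>
        apply K_anti (show 1 ≤ 2 by norm_num)
        rcases le_total x (1 / 2) with hx | hx
        · have h2 := f_mem_K false (f_mem_K true (ih 0 (by norm_num) (2 * x) (by linarith) (by linarith)))
          have e : f false (f true ⟨2 * x, 1⟩) = ⟨x, 1⟩ := by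
            apply Complex.ext
            · rw [f_false_re, f_true_re, f_true_im]; ring
            · rw [f_false_im, f_true_re, f_true_im]; ring
          rwa [e] at h2
        · have h2 := f_mem_K true (f_mem_K false (ih 0 (by norm_num) (2 * x - 1) (by linarith) (by linarith)))
          have e : f true (f false ⟨2 * x - 1, 1⟩) = ⟨x, 1⟩ := by
            apply Complex.ext
            · rw [f_true_re, f_false_re, f_false_im]; ring
            · rw [f_true_im, f_false_re, f_false_im]; ring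
          rwa [e] at h2
      | n + 2, ih =>
        rcases le_total x (1 / 2) with hx | hx
        · have h2 := f_mem_K false (f_mem_K true (ih n (by omega) (2 * x) (by linarith) (by linarith)))
          have e : f false (f true ⟨2 * x, 1⟩) = ⟨x, 1⟩ := by
            apply Complex.ext
            · rw [f_false_re, f_true_re, f_true_im]; ring
            · rw [f_false_im, f_true_re, f_true_im]; ring
          rwa [e] at h2
        · have h2 := f_mem_K true (f_mem_K false (ih n (by omega) (2 * x - 1) (by linarith) (by linarith)))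
          have e : f true (f false ⟨2 * x - 1, 1⟩) = ⟨x, 1⟩ := by
            apply Complex.ext
            · rw [f_true_re, f_false_re, f_false_im]; ring
            · rw [f_true_im, f_false_re, f_false_im]; ring
          rwa [e] at h2
  exact mem_iInter.2 fun n => key n x h0 h1

end Pool.Agent.N375.Rep
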