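import Pool.Agent.N375.Levy

set_option autoImplicit false

/-!
The Levy dragon is a 2-reptile with a hole, part 2: the hole.
-/

open Set Metric Topology MeasureTheory

namespace Pool.Agent.N375.Rep

/-- the octagon around the hole -/
def V : Set ℂ := {z | |z.re - 1 / 2| < 1 / 4 ∧ |z.im - 5 / 8| < 1 / 4 ∧
  |z.re - 1 / 2| + |z.im - 5 / 8| < 3 / 8}

/-- the closed octagon -/
def V' : Set ℂ := {z | |z.re - 1 / 2| ≤ 1 / 4 ∧ |z.im - 5 / 8| ≤ 1 / 4 ∧
  |z.re - 1 / 2| + |z.im - 5 / 8| ≤ 3 / 8}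

lemma V_open : IsOpen V := by
  have hr := Complex.continuous_re
  have hi := Complex.continuous_im
  exact (isOpen_lt (by fun_prop) (by fun_prop)).and
    ((isOpen_lt (by fun_prop) (by fun_prop)).and (isOpen_lt (by fun_prop) (by fun_prop)))

lemma V'_closed : IsClosed V' := by
  have hr := Complex.continuous_re
  have hi := Complex.continuous_im
  exact (isClosed_le (by fun_prop) (by fun_prop)).and
    ((isClosed_le (by fun_prop) (by fun_prop)).and (isClosed_le (by fun_prop) (by fun_prop)))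

lemma V_bdd : Bornology.IsBounded V := by
  refine (isBounded_iff_subset_closedBall (0 : ℂ)).2 ⟨4, ?_⟩
  rintro z ⟨h1, h2, -⟩
  rw [mem_closedBall, dist_zero_right]
  have h5 := Complex.norm_le_abs_re_add_abs_im z
  rw [abs_lt] at h1 h2
  have h6 : |z.re| ≤ 1 := abs_le.2 ⟨by linarith, by linarith⟩
  have h7 : |z.im| ≤ 1 := abs_le.2 ⟨by linarith, by linarith⟩
  linarith

lemma P0' {x y x' y' : ℝ} (hx : x + y = x') (hy : y - x = y') (h : (⟨x', y'⟩ : ℂ) ∈ X) :
    (⟨x, y⟩ : ℂ) ∈ X := by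
  subst hx hy; exact P0 h

lemma P1' {x y x' y' : ℝ} (hx : x - y = x') (hy : x + y - 1 = y') (h : (⟨x', y'⟩ : ℂ) ∈ X) :
    (⟨x, y⟩ : ℂ) ∈ X := by
  subst hx hy; exact P1 h

lemma PT' {x y : ℝ} (hy : y = 1) (h0 : 0 ≤ x) (h1 : x ≤ 1) : (⟨x, y⟩ : ℂ) ∈ X := by
  subst hy; exact PT h0 h1

lemma sR {t : ℝ} (h0 : 1/2 ≤ t) (h1 : t ≤ 3/4) : (⟨(3/4), ((1) * t + (0))⟩ : ℂ) ∈ X := by
  refine P0' (x' := ((1) * t + (3/4))) (y' := ((1) * t + (-3/4))) (by ring) (by ring) ?_
  refine P1' (x' := (3/2)) (y' := ((2) * t + (-1))) (by ring) (by ring) ?_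
  refine P1' (x' := ((-2) * t + (5/2))) (y' := ((2) * t + (-1/2))) (by ring) (by ring) ?_
  refine P1' (x' := ((-4) * t + (3))) (y' := (1)) (by ring) (by ring) ?_
  exact PT' (by ring) (by linarith) (by linarith)

lemma sRD {t : ℝ} (h0 : 5/8 ≤ t) (h1 : t ≤ 3/4) : (⟨((1) * t + (0)), ((1) * t + (-1/4))⟩ : ℂ) ∈ X := by
  refine P0' (x' := ((2) * t + (-1/4))) (y' := (-1/4)) (by ring) (by ring) ?_
  refine P1' (x' := ((2) * t + (0))) (y' := ((2) * t + (-3/2))) (by ring) (by ring) ?_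
  refine P1' (x' := (3/2)) (y' := ((4) * t + (-5/2))) (by ring) (by ring) ?_
  refine P1' (x' := ((-4) * t + (4))) (y' := ((4) * t + (-2))) (by ring) (by ring) ?_
  refine P1' (x' := ((-8) * t + (6))) (y' := (1)) (by ring) (by ring) ?_
  exact PT' (by ring) (by linarith) (by linarith)

lemma sRU {t : ℝ} (h0 : 5/8 ≤ t) (h1 : t ≤ 3/4) : (⟨((1) * t + (0)), ((-1) * t + (3/2))⟩ : ℂ) ∈ X := by
  refine P0' (x' := (3/2)) (y' := ((-2) * t + (3/2))) (by ring) (by ring) ?_
  refine P1' (x' := ((2) * t + (0))) (y' := ((-2) * t + (2))) (by ring) (by ring) ?_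
  refine P1' (x' := ((4) * t + (-2))) (y' := (1)) (by ring) (by ring) ?_
  refine P1' (x' := ((4) * t + (-3))) (y' := ((4) * t + (-2))) (by ring) (by ring) ?_
  refine P0' (x' := ((8) * t + (-5))) (y' := (1)) (by ring) (by ring) ?_
  exact PT' (by ring) (by linarith) (by linarith)

lemma sT1 {t : ℝ} (h0 : 1/2 ≤ t) (h1 : t ≤ 5/8) : (⟨((1) * t + (0)), (7/8)⟩ : ℂ) ∈ X := by
  refine P0' (x' := ((1) * t + (7/8))) (y' := ((-1) * t + (7/8))) (by ring) (by ring) ?_
  refine P1' (x' := ((2) * t + (0))) (y' := (3/4)) (by ring) (by ring) ?_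
  refine P1' (x' := ((2) * t + (-3/4))) (y' := ((2) * t + (-1/4))) (by ring) (by ring) ?_
  refine P1' (x' := (-1/2)) (y' := ((4) * t + (-2))) (by ring) (by ring) ?_
  refine P0' (x' := ((4) * t + (-5/2))) (y' := ((4) * t + (-3/2))) (by ring) (by ring) ?_
  refine P0' (x' := ((8) * t + (-4))) (y' := (1)) (by ring) (by ring) ?_
  exact PT' (by ring) (by linarith) (by linarith)

lemma sT2 {t : ℝ} (h0 : 3/8 ≤ t) (h1 : t ≤ 1/2) : (⟨((1) * t + (0)), (7/8)⟩ : ℂ) ∈ X := by
  refine P1' (x' := ((1) * t + (-7/8))) (y' := ((1) * t + (-1/8))) (by ring) (by ring) ?_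
  refine P0' (x' := ((2) * t + (-1))) (y' := (3/4)) (by ring) (by ring) ?_
  refine P0' (x' := ((2) * t + (-1/4))) (y' := ((-2) * t + (7/4))) (by ring) (by ring) ?_
  refine P0' (x' := (3/2)) (y' := ((-4) * t + (2))) (by ring) (by ring) ?_
  refine P1' (x' := ((4) * t + (-1/2))) (y' := ((-4) * t + (5/2))) (by ring) (by ring) ?_
  refine P1' (x' := ((8) * t + (-3))) (y' := (1)) (by ring) (by ring) ?_
  exact PT' (by ring) (by linarith) (by linarith)

lemma sB1 {t : ℝ} (h0 : 3/8 ≤ t) (h1 : t ≤ 1/2) : (⟨((1) * t + (0)), (3/8)⟩ : ℂ) ∈ X := by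
  refine P1' (x' := ((1) * t + (-3/8))) (y' := ((1) * t + (-5/8))) (by ring) (by ring) ?_
  refine P0' (x' := ((2) * t + (-1))) (y' := (-1/4)) (by ring) (by ring) ?_
  refine P0' (x' := ((2) * t + (-5/4))) (y' := ((-2) * t + (3/4))) (by ring) (by ring) ?_
  refine P0' (x' := (-1/2)) (y' := ((-4) * t + (2))) (by ring) (by ring) ?_
  refine P0' (x' := ((-4) * t + (3/2))) (y' := ((-4) * t + (5/2))) (by ring) (by ring) ?_
  refine P0' (x' := ((-8) * t + (4))) (y' := (1)) (by ring) (by ring) ?_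
  exact PT' (by ring) (by linarith) (by linarith)

lemma sB2 {t : ℝ} (h0 : 1/2 ≤ t) (h1 : t ≤ 5/8) : (⟨((1) * t + (0)), (3/8)⟩ : ℂ) ∈ X := by
  refine P0' (x' := ((1) * t + (3/8))) (y' := ((-1) * t + (3/8))) (by ring) (by ring) ?_
  refine P1' (x' := ((2) * t + (0))) (y' := (-1/4)) (by ring) (by ring) ?_
  refine P1' (x' := ((2) * t + (1/4))) (y' := ((2) * t + (-5/4))) (by ring) (by ring) ?_
  refine P1' (x' := (3/2)) (y' := ((4) * t + (-2))) (by ring) (by ring) ?_
  refine P1' (x' := ((-4) * t + (7/2))) (y' := ((4) * t + (-3/2))) (by ring) (by ring) ?_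
  refine P1' (x' := ((-8) * t + (5))) (y' := (1)) (by ring) (by ring) ?_
  exact PT' (by ring) (by linarith) (by linarith)

lemma sL {t : ℝ} (h0 : 1/2 ≤ t) (h1 : t ≤ 3/4) : (⟨(1/4), ((1) * t + (0))⟩ : ℂ) ∈ X := by
  refine P1' (x' := ((-1) * t + (1/4))) (y' := ((1) * t + (-3/4))) (by ring) (by ring) ?_
  refine P0' (x' := (-1/2)) (y' := ((2) * t + (-1))) (by ring) (by ring) ?_
  refine P0' (x' := ((2) * t + (-3/2))) (y' := ((2) * t + (-1/2))) (by ring) (by ring) ?_
  refine P0' (x' := ((4) * t + (-2))) (y' := (1)) (by ring) (by ring) ?_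
  exact PT' (by ring) (by linarith) (by linarith)

lemma sLD {t : ℝ} (h0 : 1/4 ≤ t) (h1 : t ≤ 3/8) : (⟨((1) * t + (0)), ((-1) * t + (3/4))⟩ : ℂ) ∈ X := by
  refine P1' (x' := ((2) * t + (-3/4))) (y' := (-1/4)) (by ring) (by ring) ?_
  refine P0' (x' := ((2) * t + (-1))) (y' := ((-2) * t + (1/2))) (by ring) (by ring) ?_
  refine P0' (x' := (-1/2)) (y' := ((-4) * t + (3/2))) (by ring) (by ring) ?_
  refine P0' (x' := ((-4) * t + (1))) (y' := ((-4) * t + (2))) (by ring) (by ring) ?_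
  refine P0' (x' := ((-8) * t + (3))) (y' := (1)) (by ring) (by ring) ?_
  exact PT' (by ring) (by linarith) (by linarith)

lemma sLU {t : ℝ} (h0 : 1/4 ≤ t) (h1 : t ≤ 3/8) : (⟨((1) * t + (0)), ((1) * t + (1/2))⟩ : ℂ) ∈ X := by
  refine P1' (x' := (-1/2)) (y' := ((2) * t + (-1/2))) (by ring) (by ring) ?_
  refine P0' (x' := ((2) * t + (-1))) (y' := ((2) * t + (0))) (by ring) (by ring) ?_
  refine P0' (x' := ((4) * t + (-1))) (y' := (1)) (by ring) (by ring) ?_
  refine P0' (x' := ((4) * t + (0))) (y' := ((-4) * t + (2))) (by ring) (by ring) ?_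
  refine P1' (x' := ((8) * t + (-2))) (y' := (1)) (by ring) (by ring) ?_
  exact PT' (by ring) (by linarith) (by linarith)

lemma n2 : (⟨(5/4), (-1)⟩ : ℂ) ∉ X := by
  intro h
  have h2 := P_H h
  norm_num at h2

lemma n4 : (⟨(5/4), (-(3/4))⟩ : ℂ) ∉ X := by
  intro h
  have h2 := P_H h
  norm_num at h2

lemma n6 : (⟨(1), (-(1/2))⟩ : ℂ) ∉ X := by
  intro h
  have h2 := P_H h
  norm_num at h2

lemma n8 : (⟨(1/2), (-(1/2))⟩ : ℂ) ∉ X := by
  intro h
  have h2 := P_H h
  norm_num at h2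

lemma n7 : (⟨(1/2), (0)⟩ : ℂ) ∉ X := by
  intro h
  rcases P_split h with h | h
  · norm_num at h; exact n8 h
  · norm_num at h; exact n8 h

lemma n5 : (⟨(3/4), (1/4)⟩ : ℂ) ∉ X := by
  intro h
  rcases P_split h with h | h
  · norm_num at h; exact n6 h
  · norm_num at h; exact n7 h

lemma n3 : (⟨(1), (1/4)⟩ : ℂ) ∉ X := by
  intro h
  rcases P_split h with h | h
  · norm_num at h; exact n4 h
  · norm_num at h; exact n5 h

lemma n1 : (⟨(9/8), (1/8)⟩ : ℂ) ∉ X := by
  intro h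
  rcases P_split h with h | h
  · norm_num at h; exact n2 h
  · norm_num at h; exact n3 h

lemma n12 : (⟨(0), (-(1/2))⟩ : ℂ) ∉ X := by
  intro h
  have h2 := P_H h
  norm_num at h2

lemma n11 : (⟨(1/4), (1/4)⟩ : ℂ) ∉ X := by
  intro h
  rcases P_split h with h | h
  · norm_num at h; exact n7 h
  · norm_num at h; exact n12 h

lemma n13 : (⟨(-(1/4)), (-(3/4))⟩ : ℂ) ∉ X := by
  intro h
  have h2 := P_H h
  norm_num at h2

lemma n10 : (⟨(0), (1/4)⟩ : ℂ) ∉ X := by
  intro h
  rcases P_split h with h | h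
  · norm_num at h; exact n11 h
  · norm_num at h; exact n13 h

lemma n14 : (⟨(-(1/4)), (-1)⟩ : ℂ) ∉ X := by
  intro h
  have h2 := P_H h
  norm_num at h2

lemma n9 : (⟨(-(1/8)), (1/8)⟩ : ℂ) ∉ X := by
  intro h
  rcases P_split h with h | h
  · norm_num at h; exact n10 h
  · norm_num at h; exact n14 h

lemma n0 : (⟨(1/2), (5/8)⟩ : ℂ) ∉ X := by
  intro h
  rcases P_split h with h | h
  · norm_num at h; exact n1 h
  · norm_num at h; exact n9 h

-- main: n0


lemma sides {x y : ℝ} (h1 : |x - 1 / 2| ≤ 1 / 4) (h2 : |y - 5 / 8| ≤ 1 / 4)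
    (h3 : |x - 1 / 2| + |y - 5 / 8| ≤ 3 / 8)
    (hn : ¬ (|x - 1 / 2| < 1 / 4 ∧ |y - 5 / 8| < 1 / 4 ∧ |x - 1 / 2| + |y - 5 / 8| < 3 / 8)) :
    (⟨x, y⟩ : ℂ) ∈ X := by
  by_cases hx : |x - 1 / 2| = 1 / 4
  · rw [hx] at h3
    have h4 : |y - 5 / 8| ≤ 1 / 8 := by linarith
    obtain ⟨h5, h6⟩ := abs_le.1 h4
    rcases (abs_eq (by norm_num)).1 hx with h | h
    · have := sR (t := y) (by linarith) (by linarith)
      convert this using 2
      · linarith
      · ring
    · have := sL (t := y) (by linarith) (by linarith)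
      convert this using 2
      · linarith
      · ring
  by_cases hy : |y - 5 / 8| = 1 / 4
  · rw [hy] at h3
    have h4 : |x - 1 / 2| ≤ 1 / 8 := by linarith
    obtain ⟨h5, h6⟩ := abs_le.1 h4
    rcases (abs_eq (by norm_num)).1 hy with h | h
    · rcases le_total x (1 / 2) with hx2 | hx2
      · have := sT2 (t := x) (by linarith) (by linarith)
        convert this using 2
        · ring
        · linarith
      · have := sT1 (t := x) (by linarith) (by linarith)
        convert this using 2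
        · ring
        · linarith
    · rcases le_total x (1 / 2) with hx2 | hx2
      · have := sB1 (t := x) (by linarith) (by linarith)
        convert this using 2
        · ring
        · linarith
      · have := sB2 (t := x) (by linarith) (by linarith)
        convert this using 2
        · ring
        · linarith
  have hx' : |x - 1 / 2| < 1 / 4 := lt_of_le_of_ne h1 hx
  have hy' : |y - 5 / 8| < 1 / 4 := lt_of_le_of_ne h2 hy
  have h4 : |x - 1 / 2| + |y - 5 / 8| = 3 / 8 := by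
    refine le_antisymm h3 (not_lt.1 fun h => hn ⟨hx', hy', h⟩)
  rcases le_total x (1 / 2) with hx2 | hx2
  · rw [abs_of_nonpos (by linarith)] at h4 hx'
    rcases le_total y (5 / 8) with hy2 | hy2
    · rw [abs_of_nonpos (by linarith)] at h4 hy'
      have := sLD (t := x) (by linarith) (by linarith)
      convert this using 2
      · ring
      · linarith
    · rw [abs_of_nonneg (by linarith)] at h4 hy'
      have := sLU (t := x) (by linarith) (by linarith)
      convert this using 2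
      · ring
      · linarith
  · rw [abs_of_nonneg (by linarith)] at h4 hx'
    rcases le_total y (5 / 8) with hy2 | hy2
    · rw [abs_of_nonpos (by linarith)] at h4 hy'
      have := sRD (t := x) (by linarith) (by linarith)
      convert this using 2
      · ring
      · linarith
    · rw [abs_of_nonneg (by linarith)] at h4 hy'
      have := sRU (t := x) (by linarith) (by linarith)
      convert this using 2
      · ring
      · linarith

lemma diff_sub : V' \ V ⊆ X := by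
  rintro ⟨x, y⟩ ⟨⟨h1, h2, h3⟩, h4⟩
  exact sides h1 h2 h3 h4

theorem hole : HasHole X := by
  refine ⟨⟨1 / 2, 5 / 8⟩, n0, ?_⟩
  refine V_bdd.subset ?_
  have hz : (⟨1 / 2, 5 / 8⟩ : ℂ) ∈ Xᶜ := n0
  have hzV : (⟨1 / 2, 5 / 8⟩ : ℂ) ∈ V := by
    refine ⟨?_, ?_, ?_⟩ <;> norm_num
  refine isPreconnected_connectedComponentIn.subset_left_of_subset_union V_open
    V'_closed.isOpen_compl ?_ ?_ ?_
  · refine disjoint_compl_right.mono_left ?_
    rintro z ⟨h1, h2, h3⟩
    exact ⟨h1.le, h2.le, h3.le⟩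
  · intro z hz2
    have h5 : z ∈ Xᶜ := connectedComponentIn_subset _ _ hz2
    by_cases h6 : z ∈ V'
    · left
      by_contra h7
      exact h5 (diff_sub ⟨h6, h7⟩)
    · exact Or.inr h6
  · exact ⟨_, mem_connectedComponentIn hz, hzV⟩

end Pool.Agent.N375.Rep
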