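import Pool.Agent.N375.Levy

set_option autoImplicit false

/-!
The Levy dragon is a 2-reptile with a hole, part 3: the dragon is connected, it is the closure of
its interior, and its two halves have disjoint interiors.
-/

open Set Metric Topology MeasureTheory
open scoped Pointwise

namespace Pool.Agent.N375.Rep

/-! ### connectedness -/

lemma one_mem_K (n : ℕ) : (1 : ℂ) ∈ K n := by
  induction n with
  | zero => simp [K, H]; norm_num
  | succ n ih =>
    have h := f_mem_K true ih
    have e : f true 1 = 1 := by simp only [f]; ring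
    rwa [e] at h

lemma zero_mem_K (n : ℕ) : (0 : ℂ) ∈ K n := X_sub_K n zero_mem

lemma H_convex : Convex ℝ H := by
  have hr : ∀ (a b : ℝ) (z w : ℂ), (a • z + b • w).re = a * z.re + b * w.re := by
    intro a b z w; simp
  have hi : ∀ (a b : ℝ) (z w : ℂ), (a • z + b • w).im = a * z.im + b * w.im := by
    intro a b z w; simp
  rintro z ⟨h1, h2, h3, h4, h5, h6, h7, h8⟩ w ⟨k1, k2, k3, k4, k5, k6, k7, k8⟩ a b ha hb hab
  have hb' : b = 1 - a := by linarith
  simp only [H, mem_ofPred_eq, hr, hi]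
  refine ⟨?_, ?_, ?_, ?_, ?_, ?_, ?_, ?_⟩
  · nlinarith [mul_le_mul_of_nonneg_left h1 ha, mul_le_mul_of_nonneg_left k1 hb]
  · nlinarith [mul_le_mul_of_nonneg_left h2 ha, mul_le_mul_of_nonneg_left k2 hb]
  · nlinarith [mul_le_mul_of_nonneg_left h3 ha, mul_le_mul_of_nonneg_left k3 hb]
  · nlinarith [mul_le_mul_of_nonneg_left h4 ha, mul_le_mul_of_nonneg_left k4 hb]
  · nlinarith [mul_le_mul_of_nonneg_left h5 ha, mul_le_mul_of_nonneg_left k5 hb]
  · nlinarith [mul_le_mul_of_nonneg_left h6 ha, mul_le_mul_of_nonneg_left k6 hb]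
  · nlinarith [mul_le_mul_of_nonneg_left h7 ha, mul_le_mul_of_nonneg_left k7 hb]
  · nlinarith [mul_le_mul_of_nonneg_left h8 ha, mul_le_mul_of_nonneg_left k8 hb]

lemma K_conn (n : ℕ) : IsPreconnected (K n) := by
  induction n with
  | zero => exact H_convex.isPreconnected
  | succ n ih =>
    refine IsPreconnected.union (f false 1) ⟨1, one_mem_K n, rfl⟩ ⟨0, zero_mem_K n, ?_⟩
      (ih.image _ (f_cont false).continuousOn) (ih.image _ (f_cont true).continuousOn)
    simp [f]

/-- a decreasing intersection of compact preconnected sets is preconnected -/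
theorem inter_preconnected {C : ℕ → Set ℂ} (hanti : Antitone C) (hcomp : ∀ n, IsCompact (C n))
    (hconn : ∀ n, IsPreconnected (C n)) : IsPreconnected (⋂ n, C n) := by
  have hcl : IsClosed (⋂ n, C n) := isClosed_iInter fun n => (hcomp n).isClosed
  rw [isPreconnected_iff_subset_of_fully_disjoint_closed hcl]
  intro u v hu hv huv hdis
  obtain ⟨U, V, hU, hV, huU, hvV, hUV⟩ := (normal_separation (s := (⋂ n, C n) ∩ u) (t := (⋂ n, C n) ∩ v)
    (hcl.inter hu) (hcl.inter hv) (hdis.mono inter_subset_right inter_subset_right))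
  have hsub : (⋂ n, C n) ⊆ U ∪ V := by
    intro z hz
    rcases huv hz with h | h
    · exact Or.inl (huU ⟨hz, h⟩)
    · exact Or.inr (hvV ⟨hz, h⟩)
  obtain ⟨n, hn⟩ : ∃ n, C n ⊆ U ∪ V := by
    refine exists_subset_nhds_of_isCompact (directed_of_isDirected_le hanti) hcomp ?_
    intro z hz
    exact (hU.union hV).mem_nhds (hsub hz)
  rcases (hconn n).subset_or_subset hU hV hUV hn with h | h
  · left
    intro z hz
    rcases huv hz with h2 | h2
    · exact h2
    · exact absurd (hUV.le_bot ⟨h (mem_iInter.1 hz n), hvV ⟨hz, h2⟩⟩) (by simp)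
  · right
    intro z hz
    rcases huv hz with h2 | h2
    · exact absurd (hUV.le_bot ⟨huU ⟨hz, h2⟩, h (mem_iInter.1 hz n)⟩) (by simp)
    · exact h2

theorem X_conn : IsConnected X :=
  ⟨⟨0, zero_mem⟩, inter_preconnected K_anti K_compact K_conn⟩

/-! ### the dragon and its images cover the plane -/

/-- the union of the dragons on all directed edges of the square lattice -/
def Y : Set ℂ := {z | ∃ a b c e : ℤ, c ^ 2 + e ^ 2 = 1 ∧ ∃ x ∈ X,
  z = ((a : ℂ) + b * Complex.I) + ((c : ℂ) + e * Complex.I) * x}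

lemma Y_shrink {z : ℂ} (hz : (1 + Complex.I) * z ∈ Y) : z ∈ Y := by
  obtain ⟨a, b, c, e, hce, x, hx, h⟩ := hz
  have hI : Complex.I * Complex.I = -1 := Complex.I_mul_I
  have hne : (1 + Complex.I) ≠ 0 := by
    intro h0
    have := congrArg Complex.re h0
    simp at this
  rcases Int.even_or_odd' (a + b) with ⟨m, hm | hm⟩
  · -- even
    refine ⟨m, m - a, e, -c, by rw [← hce]; ring, f false x, f_mem_X false hx, ?_⟩
    apply mul_left_cancel₀ hne
    rw [h]
    have hb : (b : ℂ) = 2 * m - a := by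
      have : b = 2 * m - a := by omega
      rw [this]; push_cast; ring
    rw [hb]
    simp only [f]
    push_cast
    linear_combination (-(m:ℂ) + a + (-(e:ℂ) / 2 * x) + (c : ℂ) * x + c * x * Complex.I / 2) * hI
  · have hodd : (c + e) % 2 = 1 := by
      have h1 : (c ^ 2 + e ^ 2) % 2 = 1 := by rw [hce]; rfl
      rcases Int.even_or_odd' c with ⟨c', hc | hc⟩ <;> rcases Int.even_or_odd' e with ⟨e', he | he⟩ <;>
        subst hc he <;> ring_nf at h1 ⊢ <;> omega
    obtain ⟨p, hp⟩ : ∃ p, a + e + (b - c) = 2 * p := by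
      refine ⟨(a + e + (b - c)) / 2, ?_⟩
      omega
    refine ⟨p, b - c - p, c, e, hce, f true x, f_mem_X true hx, ?_⟩
    apply mul_left_cancel₀ hne
    rw [h]
    have hb : (a : ℂ) = 2 * p - e - (b - c) := by
      have : a = 2 * p - e - (b - c) := by omega
      rw [this]; push_cast; ring
    rw [hb]
    simp only [f]
    push_cast
    linear_combination (-((b : ℂ) - c - p - (c + e * Complex.I) * x / 2 +
      (c + e * Complex.I) / 2 + e)) * hI

/-- lattice points are in `Y` -/
lemma Y_lattice (a b : ℤ) : ((a : ℂ) + b * Complex.I) ∈ Y :=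
  ⟨a, b, 1, 0, by norm_num, 0, zero_mem, by simp⟩

lemma near_lattice (z : ℂ) : ∃ y ∈ Y, dist z y ≤ 1 := by
  refine ⟨_, Y_lattice (round z.re) (round z.im), ?_⟩
  have h1 := abs_sub_round z.re
  have h2 := abs_sub_round z.im
  rw [dist_eq_norm]
  refine (Complex.norm_le_abs_re_add_abs_im _).trans ?_
  simp only [Complex.sub_re, Complex.add_re, Complex.intCast_re, Complex.mul_re, Complex.I_re,
    mul_zero, Complex.intCast_im, Complex.I_im, mul_one, sub_self, add_zero, Complex.sub_im,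
    Complex.add_im, Complex.mul_im, zero_add]
  linarith

lemma near_Y (n : ℕ) : ∀ z : ℂ, ∃ y ∈ Y, dist z y ≤ r ^ n := by
  induction n with
  | zero => simpa using near_lattice
  | succ n ih =>
    intro z
    have hne : (1 + Complex.I) ≠ 0 := by
      intro h0
      have := congrArg Complex.re h0
      simp at this
    obtain ⟨y, hy, hd⟩ := ih ((1 + Complex.I) * z)
    have e : (1 + Complex.I) * ((1 + Complex.I)⁻¹ * y) = y := by
      rw [mul_inv_cancel_left₀ hne]
    refine ⟨(1 + Complex.I)⁻¹ * y, Y_shrink (by rw [e]; exact hy), ?_⟩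
    have h2 : dist ((1 + Complex.I) * z) y = Real.sqrt 2 * dist z ((1 + Complex.I)⁻¹ * y) := by
      conv_lhs => rw [← e]
      rw [dist_eq_norm, ← mul_sub, norm_mul, norm_a, dist_eq_norm]
    rw [h2] at hd
    have hr : r * Real.sqrt 2 = 1 := by
      unfold r; exact inv_mul_cancel₀ (by positivity)
    calc dist z ((1 + Complex.I)⁻¹ * y) = r * (Real.sqrt 2 * dist z ((1 + Complex.I)⁻¹ * y)) := by
          rw [← mul_assoc, hr, one_mul]
      _ ≤ r * r ^ n := mul_le_mul_of_nonneg_left hd r_pos.le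
      _ = r ^ (n + 1) := by ring

/-- one dragon of the family -/
def S (t : ℤ × ℤ × ℤ × ℤ) : Set ℂ := {z | t.2.2.1 ^ 2 + t.2.2.2 ^ 2 = 1 ∧ ∃ x ∈ X,
  z = ((t.1 : ℂ) + t.2.1 * Complex.I) + ((t.2.2.1 : ℂ) + t.2.2.2 * Complex.I) * x}

lemma Y_eq : Y = ⋃ t, S t := by
  ext z
  constructor
  · rintro ⟨a, b, c, e, h, x, hx, hz⟩
    exact mem_iUnion.2 ⟨(a, b, c, e), h, x, hx, hz⟩
  · intro hz
    obtain ⟨⟨a, b, c, e⟩, h, x, hx, hz⟩ := mem_iUnion.1 hz
    exact ⟨a, b, c, e, h, x, hx, hz⟩

lemma S_eq {t : ℤ × ℤ × ℤ × ℤ} (ht : t.2.2.1 ^ 2 + t.2.2.2 ^ 2 = 1) :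
    S t = (fun x : ℂ => ((t.1 : ℂ) + t.2.1 * Complex.I) +
      ((t.2.2.1 : ℂ) + t.2.2.2 * Complex.I) * x) '' X := by
  ext z
  constructor
  · rintro ⟨-, x, hx, rfl⟩; exact ⟨x, hx, rfl⟩
  · rintro ⟨x, hx, rfl⟩; exact ⟨ht, x, hx, rfl⟩

lemma S_closed (t : ℤ × ℤ × ℤ × ℤ) : IsClosed (S t) := by
  by_cases ht : t.2.2.1 ^ 2 + t.2.2.2 ^ 2 = 1
  · rw [S_eq ht]
    exact (X_compact.image (by fun_prop)).isClosed
  · have : S t = ∅ := by
      ext z
      constructor
      · rintro ⟨h, -⟩; exact absurd h ht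
      · intro h; exact absurd h (by simp)
    rw [this]; exact isClosed_empty

lemma unit_bound {c e : ℤ} (h : c ^ 2 + e ^ 2 = 1) : -1 ≤ c ∧ c ≤ 1 ∧ -1 ≤ e ∧ e ≤ 1 := by
  refine ⟨?_, ?_, ?_, ?_⟩ <;> nlinarith [sq_nonneg c, sq_nonneg e]

lemma unit_norm {c e : ℤ} (h : c ^ 2 + e ^ 2 = 1) : ‖((c : ℂ) + e * Complex.I)‖ = 1 := by
  rw [Complex.norm_def, Complex.normSq_apply]
  simp only [Complex.add_re, Complex.intCast_re, Complex.mul_re, Complex.I_re,
    mul_zero, Complex.intCast_im, Complex.I_im, mul_one, sub_self, add_zero,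
    Complex.add_im, Complex.mul_im, zero_add]
  have : (c : ℝ) * c + e * e = 1 := by
    have h2 : ((c ^ 2 + e ^ 2 : ℤ) : ℝ) = 1 := by rw [h]; norm_num
    push_cast at h2
    linarith
  rw [this]; simp

lemma S_locallyFinite : LocallyFinite S := by
  intro z
  refine ⟨ball z 1, ball_mem_nhds z one_pos, ?_⟩
  set B : Set (ℤ × ℤ × ℤ × ℤ) := (Icc ⌊z.re - 5⌋ ⌈z.re + 5⌉) ×ˢ ((Icc ⌊z.im - 5⌋ ⌈z.im + 5⌉) ×ˢ
    ((Icc (-1) 1) ×ˢ (Icc (-1) 1))) with hB
  have hBf : B.Finite := (finite_Icc _ _).prod ((finite_Icc _ _).prod ((finite_Icc _ _).prod (finite_Icc _ _)))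
  refine hBf.subset ?_
  rintro ⟨a, b, c, e⟩ ⟨w, ⟨h, x, hx, hw⟩, hwz⟩
  obtain ⟨h1, h2, h3, h4⟩ := unit_bound h
  have hx4 : ‖x‖ ≤ 4 := by
    have := H_sub (X_sub_K 0 hx)
    simpa using this
  have hd : dist ((a : ℂ) + b * Complex.I) z ≤ 5 := by
    have h5 : dist ((a : ℂ) + b * Complex.I) w ≤ 4 := by
      rw [hw, dist_eq_norm]
      simp only [sub_add_cancel_left, norm_neg, norm_mul]
      simp only at h
      rw [unit_norm h, one_mul]; exact hx4
    have h6 : dist w z < 1 := hwz
    linarith [dist_triangle ((a : ℂ) + b * Complex.I) w z]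
  rw [dist_eq_norm] at hd
  have hre := (Complex.abs_re_le_norm _).trans hd
  have him := (Complex.abs_im_le_norm _).trans hd
  simp only [Complex.sub_re, Complex.add_re, Complex.intCast_re, Complex.mul_re, Complex.I_re,
    mul_zero, Complex.intCast_im, Complex.I_im, mul_one, sub_self, add_zero, Complex.sub_im,
    Complex.add_im, Complex.mul_im, zero_add] at hre him
  rw [abs_le] at hre him
  refine ⟨⟨?_, ?_⟩, ⟨?_, ?_⟩, ⟨h1, h2⟩, ⟨h3, h4⟩⟩
  · have : (⌊z.re - 5⌋ : ℝ) ≤ a := (Int.floor_le _).trans (by linarith)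
    exact_mod_cast this
  · have : (a : ℝ) ≤ ⌈z.re + 5⌉ := le_trans (by linarith) (Int.le_ceil _)
    exact_mod_cast this
  · have : (⌊z.im - 5⌋ : ℝ) ≤ b := (Int.floor_le _).trans (by linarith)
    exact_mod_cast this
  · have : (b : ℝ) ≤ ⌈z.im + 5⌉ := le_trans (by linarith) (Int.le_ceil _)
    exact_mod_cast this

theorem Y_univ : Y = univ := by
  have hcl : IsClosed Y := by
    rw [Y_eq]; exact S_locallyFinite.isClosed_iUnion S_closed
  rw [eq_univ_iff_forall]
  intro z
  rw [← hcl.closure_eq, Metric.mem_closure_iff]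
  intro ε hε
  obtain ⟨n, hn⟩ := exists_pow_lt_of_lt_one hε r_lt
  obtain ⟨y, hy, hd⟩ := near_Y n z
  exact ⟨y, hy, lt_of_le_of_lt hd hn⟩

theorem X_interior : (interior X).Nonempty := by
  have h1 : ⋃ t, S t = univ := by rw [← Y_eq]; exact Y_univ
  obtain ⟨t, ht⟩ := nonempty_interior_of_iUnion_of_closed S_closed h1
  by_cases h : t.2.2.1 ^ 2 + t.2.2.2 ^ 2 = 1
  · rw [S_eq h] at ht
    have hne : ((t.2.2.1 : ℂ) + t.2.2.2 * Complex.I) ≠ 0 := by
      rw [← norm_pos_iff, unit_norm h]; exact one_pos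
    let φ : ℂ ≃ₜ ℂ := (Homeomorph.mulLeft₀ _ hne).trans
      (Homeomorph.addLeft ((t.1 : ℂ) + t.2.1 * Complex.I))
    have e : (fun x : ℂ => ((t.1 : ℂ) + t.2.1 * Complex.I) +
      ((t.2.2.1 : ℂ) + t.2.2.2 * Complex.I) * x) = φ := rfl
    rw [e, ← φ.image_interior] at ht
    exact ht.of_image
  · exfalso
    obtain ⟨z, hz⟩ := ht
    exact h (interior_subset hz).1

/-! ### closure of the interior -/

lemma f_open (i : Bool) : IsOpenMap (f i) := by
  have ha : (1 + Complex.I) / 2 ≠ 0 := by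
    intro h0
    have := congrArg Complex.re h0
    simp at this
  have hb : (1 - Complex.I) / 2 ≠ 0 := by
    intro h0
    have := congrArg Complex.re h0
    simp at this
  cases i
  · exact (Homeomorph.mulLeft₀ _ ha).isOpenMap
  · exact ((Homeomorph.mulLeft₀ _ hb).trans (Homeomorph.addRight _)).isOpenMap

lemma f_mem_int (i : Bool) {z : ℂ} (hz : z ∈ interior X) : f i z ∈ interior X := by
  have h1 : f i '' interior X ⊆ interior X := by
    refine interior_maximal ?_ (f_open i _ isOpen_interior)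
    rintro _ ⟨w, hw, rfl⟩
    exact f_mem_X i (interior_subset hw)
  exact h1 ⟨z, hz, rfl⟩

theorem X_tile : IsTile X := by
  refine ⟨X_compact.isBounded, Subset.antisymm ?_ ?_⟩
  · exact closure_minimal interior_subset X_closed
  · obtain ⟨v0, hv0⟩ := X_interior
    have key : ∀ n : ℕ, ∀ x ∈ X, ∃ v ∈ interior X, dist x v ≤ r ^ n * 8 := by
      intro n
      induction n with
      | zero =>
        intro x hx
        refine ⟨v0, hv0, ?_⟩
        have h1 := H_sub (X_sub_K 0 hx)
        have h2 := H_sub (X_sub_K 0 (interior_subset hv0))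
        rw [mem_closedBall] at h1 h2
        have := dist_triangle_right x v0 0
        simp only [pow_zero, one_mul]
        linarith
      | succ n ih =>
        intro x hx
        obtain ⟨i, w, hw, rfl⟩ := X_split hx
        obtain ⟨v, hv, hd⟩ := ih w hw
        refine ⟨f i v, f_mem_int i hv, ?_⟩
        rw [dist_f, pow_succ']
        calc r * dist w v ≤ r * (r ^ n * 8) := mul_le_mul_of_nonneg_left hd r_pos.le
          _ = r * r ^ n * 8 := by ring
    intro x hx
    rw [Metric.mem_closure_iff]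
    intro ε hε
    obtain ⟨n, hn⟩ := exists_pow_lt_of_lt_one (show 0 < ε / 8 by positivity) r_lt
    obtain ⟨v, hv, hd⟩ := key n x hx
    refine ⟨v, hv, lt_of_le_of_lt hd ?_⟩
    linarith

/-! ### the two halves have disjoint interiors -/

/-- two-dimensional Hausdorff measure -/
noncomputable def ν : Measure ℂ := μH[(Module.finrank ℝ ℂ : ℕ)]

instance : ν.IsAddHaarMeasure := by
  unfold ν; infer_instance

lemma meas_f (i : Bool) (A : Set ℂ) : ν (f i '' A) = (2 : ENNReal)⁻¹ * ν A := by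
  obtain ⟨e, he⟩ : ∃ e : ℂ ≃ᵢ ℂ, ∀ z, f i z = e (r • z) := by
    have hr : (Real.sqrt ((2 : ℕ) : ℝ))⁻¹ = r := by unfold r; norm_num
    cases i
    · exact ⟨g 0, fun z => by rw [← g_zero, hr]⟩
    · exact ⟨g 1, fun z => by rw [← g_one, hr]⟩
  have e1 : f i '' A = e '' (r • A) := by
    ext z
    constructor
    · rintro ⟨a, ha, rfl⟩
      exact ⟨r • a, ⟨a, ha, rfl⟩, (he a).symm⟩
    · rintro ⟨_, ⟨a, ha, rfl⟩, rfl⟩
      exact ⟨a, ha, he a⟩
  have e2 : ν (e '' (r • A)) = ν (r • A) := by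
    unfold ν; exact e.hausdorffMeasure_image _ _
  rw [e1, e2, Measure.addHaar_smul]
  congr 1
  rw [Complex.finrank_real_complex, r_sq]
  rw [abs_of_nonneg (by norm_num), one_div, ENNReal.ofReal_inv_of_pos (by norm_num)]
  norm_num

theorem halves : Disjoint (interior (f false '' X)) (interior (f true '' X)) := by
  have hA : MeasurableSet (f true '' X) := (X_compact.image (f_cont true)).measurableSet
  have hfin : ν X ≠ ⊤ := X_compact.measure_lt_top.ne
  have h1 : ν (f false '' X ∪ f true '' X) + ν (f false '' X ∩ f true '' X) =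
      ν (f false '' X) + ν (f true '' X) := measure_union_add_inter _ hA
  rw [← X_eq, meas_f, meas_f] at h1
  have h2 : (2 : ENNReal)⁻¹ * ν X + (2 : ENNReal)⁻¹ * ν X = ν X := by
    rw [← add_mul, ENNReal.inv_two_add_inv_two, one_mul]
  rw [h2] at h1
  have h3 : ν (f false '' X ∩ f true '' X) = 0 := by
    have h4 : ν X + ν (f false '' X ∩ f true '' X) = ν X + 0 := by rw [h1, add_zero]
    exact (ENNReal.add_right_inj hfin).1 h4
  rw [disjoint_iff_inter_eq_empty]
  have h5 : ν (interior (f false '' X) ∩ interior (f true '' X)) = 0 :=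
    measure_mono_null (inter_subset_inter interior_subset interior_subset) h3
  exact ((isOpen_interior.inter isOpen_interior).measure_eq_zero_iff ν).1 h5

theorem X_reptile : IsNReptile 2 X := by
  refine ⟨X_tile, g, ?_, ?_⟩
  · have h0 : piece 2 (g 0) X = f false '' X := by
      unfold piece; congr 1; ext1 z; exact g_zero z
    have h1 : piece 2 (g 1) X = f true '' X := by
      unfold piece; congr 1; ext1 z; exact g_one z
    ext z
    rw [mem_iUnion, Fin.exists_fin_two, h0, h1]
    conv_lhs => rw [X_eq]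
    rfl
  · have h0 : piece 2 (g 0) X = f false '' X := by
      unfold piece; congr 1; ext1 z; exact g_zero z
    have h1 : piece 2 (g 1) X = f true '' X := by
      unfold piece; congr 1; ext1 z; exact g_one z
    intro i j hij
    fin_cases i <;> fin_cases j
    · exact absurd rfl hij
    · show Disjoint (interior (piece 2 (g 0) X)) (interior (piece 2 (g 1) X))
      rw [h0, h1]; exact halves
    · show Disjoint (interior (piece 2 (g 1) X)) (interior (piece 2 (g 0) X))
      rw [h0, h1]; exact halves.symm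
    · exact absurd rfl hij

end Pool.Agent.N375.Rep
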