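import Mathlib

set_option autoImplicit false

/-!
Definitions for MP_25e24e_co: reptiles in the Euclidean plane `ℂ`.
-/

open Set

namespace Pool.Agent.N375.Rep

/-- A tile: a bounded subset of the Euclidean plane `ℂ` that is the closure of its interior. -/
def IsTile (X : Set ℂ) : Prop :=
  Bornology.IsBounded X ∧ closure (interior X) = X

/-- The copy `g (n^{-1/2} X)` of `X`. -/
noncomputable def piece (n : ℕ) (g : ℂ ≃ᵢ ℂ) (X : Set ℂ) : Set ℂ :=
  (fun z : ℂ => g ((Real.sqrt n)⁻¹ • z)) '' X

/-- `X` is an `n`-reptile: a tile that is the union of `n` isometric copies of `n^{-1/2} X`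
with pairwise disjoint interiors. -/
def IsNReptile (n : ℕ) (X : Set ℂ) : Prop :=
  IsTile X ∧ ∃ g : Fin n → (ℂ ≃ᵢ ℂ), X = ⋃ i, piece n (g i) X ∧
    ∀ i j, i ≠ j → Disjoint (interior (piece n (g i) X)) (interior (piece n (g j) X))

/-- `X` has a hole: its complement has a bounded connected component. -/
def HasHole (X : Set ℂ) : Prop :=
  ∃ z ∈ Xᶜ, Bornology.IsBounded (connectedComponentIn Xᶜ z)

end Pool.Agent.N375.Rep
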